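import Pool.Agent.H91.RD.Basic
import Pool.Agent.H3.RF.Lib

/-!
# MP_609556_an: the kernel is almost even where the gradient is small
-/

open MeasureTheory Set Filter Topology Metric
open Pool.Agent.H29.TF (hk P)
open Pool.Agent.H91.RD Pool.Agent.H91.RF

namespace Pool.Agent.H24.RF.Even

theorem NDir.mono {N : ℕ} {U : Set (E N)} {η η' : ℝ} {x e : E N} (h : NDir U η x e)
    (hη : η ≤ η') : NDir U η' x e := by
  obtain ⟨h1, ξ, e0, h2, h3⟩ := h
  exact ⟨h1, ξ, e0, h2, h3.trans hη⟩

theorem Pt_shift {N : ℕ} {K : ℝ} {V : ℝ → E N → ℝ} (h : Pt K V) (τ : ℝ) (ξ : E N) :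
    Pt K (fun t x => V (τ + t) (ξ + x)) where
  K0 := h.K0
  bdd := fun t x => h.bdd _ _
  meas := h.meas.comp (by fun_prop : Measurable fun p : ℝ × E N => (τ + p.1, ξ + p.2))

theorem Pt_potE (hFPC : T_FPC) {N : ℕ} {f : ℝ → ℝ} {K : ℝ} {w : ℝ → E N → ℝ} (hr : Reaction f)
    (hl : Lip f K) (hw : Ent f w) : Pt K (potE f w) where
  K0 := hl.K0
  bdd := fun t x => (hFPC f K hr hl).1 _
  meas := (hFPC f K hr hl).2.2.1.comp hw.continuous.measurable

/-- the odd moment of an even function over a centred ball vanishes -/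
theorem odd_moment {N : ℕ} (G : E N → ℝ) (hG : ∀ y, G (-y) = G y) (ρ : ℝ) (e : E N) :
    ∫ y in closedBall (0 : E N) ρ, G y * inner ℝ y e = 0 := by
  rw [← integral_indicator measurableSet_closedBall]
  set F : E N → ℝ := (closedBall (0 : E N) ρ).indicator fun y => G y * inner ℝ y e with hF
  have h1 : ∀ y, F (-y) = -F y := by
    intro y
    by_cases hy : y ∈ closedBall (0 : E N) ρ
    · have hy' : -y ∈ closedBall (0 : E N) ρ := by
        rw [mem_closedBall_zero_iff] at hy ⊢; rwa [norm_neg]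
      rw [hF, indicator_of_mem hy', indicator_of_mem hy, hG, inner_neg_left, mul_neg]
    · have hy' : -y ∉ closedBall (0 : E N) ρ := by
        rw [mem_closedBall_zero_iff] at hy ⊢; rwa [norm_neg]
      rw [hF, indicator_of_notMem hy', indicator_of_notMem hy, neg_zero]
  have h2 : ∫ y, F y = ∫ y, F (-y) := (integral_neg_eq_self F volume).symm
  simp only [h1] at h2
  rw [integral_neg] at h2
  linarith

/-- values at earlier times do not depend on the point, in the limit -/
theorem lim_const (hPAST : T_PAST) {N : ℕ} {f : ℝ → ℝ} {K cc C0 C9 η0 : ℝ} {U : Set (E N)}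
    {u : ℝ → E N → ℝ} (hS : Stg f K U u) (hcc : 0 < cc) (hF : Frm U u cc C0 C9 η0)
    {t κ : ℕ → ℝ} {x e : ℕ → E N} {w : ℝ → E N → ℝ} (ht : Tendsto t atTop atTop)
    (hκ : Tendsto κ atTop (𝓝 0)) (h2 : ∀ n, NDir U (κ n) (x n) (e n))
    (h3 : ∀ n, |infDist (x n) U - cc * t n| ≤ κ n * t n) (h4 : ∀ n, -dx u (e n) (t n) (x n) ≤ κ n)
    (hlim : LimAt u t x w) {r : ℝ} (hr : r < 0) (y : E N) : w r y = w r 0 := by
  obtain ⟨C, hC1, η, hη, T, hT, hP⟩ := hPAST N f K cc C0 C9 η0 U u hS hcc hF (-r) (by linarith)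
    (‖y‖ + 1) (by positivity)
  have hC0 : 0 < C := by linarith
  have hd : Tendsto (fun n => u (t n + r) (x n + y) - u (t n + r) (x n + 0)) atTop (𝓝 0) := by
    have hb : ∀ᶠ n in atTop, ‖u (t n + r) (x n + y) - u (t n + r) (x n + 0)‖ ≤
        C * κ n * ‖y‖ := by
      filter_upwards [ht.eventually_ge_atTop T, ht.eventually_ge_atTop (1 - r),
        hκ.eventually_le_const hη] with n hn1 hn2 hn3
      have hn0 : 0 < t n := by linarith
      have hg : ∀ z ∈ closedBall (x n) ‖y‖, ‖fderiv ℝ (u (t n + r)) z‖ ≤ C * κ n := by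
        intro z hz
        have h5 := (hP (t n) hn1 (x n) (e n) (NDir.mono (h2 n) hn3)
          ((h3 n).trans (mul_le_mul_of_nonneg_right hn3 hn0.le)) z
          ((mem_closedBall.1 hz).trans (by linarith))).1
        rw [sub_neg_eq_add] at h5
        have h6 : gr u (t n + r) z = ‖fderiv ℝ (u (t n + r)) z‖ := rfl
        have h7 := norm_nonneg (fderiv ℝ (fun z => fderiv ℝ (u (t n + r)) z) z)
        have h8 : C * -dx u (e n) (t n) (x n) ≤ C * κ n := mul_le_mul_of_nonneg_left (h4 n) hC0.le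
        linarith
      have hdiff : ∀ z ∈ closedBall (x n) ‖y‖, DifferentiableAt ℝ (u (t n + r)) z := fun z _ =>
        ((hS.sol.sol.c2 (t n + r) (by linarith)).differentiable (by norm_num)) z
      have h9 := (convex_closedBall (x n) ‖y‖).norm_image_sub_le_of_norm_fderiv_le hdiff hg
        (x := x n + 0) (y := x n + y) (by simp) (by simp)
      rwa [add_sub_add_left_eq_sub, sub_zero] at h9
    refine squeeze_zero_norm' hb ?_
    have := (hκ.const_mul C).mul_const ‖y‖
    simpa using this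
  have hd2 := (hlim.tendsto r y).sub (hlim.tendsto r 0)
  have := tendsto_nhds_unique hd hd2
  linarith

theorem even_box (hPAST : T_PAST) (hEXT : T_EXT) (hKCV : T_KCV) (hKRFL : T_KRFL)
    (hKINV : T_KINV) (hLINU : T_LINU) (hFPC : T_FPC) (hKER : T_KER) {N : ℕ} {f : ℝ → ℝ}
    {K cc C0 C9 η0 : ℝ} {U : Set (E N)} {u : ℝ → E N → ℝ} (hS : Stg f K U u) (hcc : 0 < cc)
    (hF : Frm U u cc C0 C9 η0) (ρ δ : ℝ) (hρ : 0 < ρ) (hδ : 0 < δ) :
    ∃ κ > 0, ∃ T > 0, ∀ t ≥ T, ∀ x e, NDir U κ x e → |infDist x U - cc * t| ≤ κ * t →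
      -dx u e t x ≤ κ → ∀ e' : E N, ‖e'‖ = 1 →
      |∫ y in closedBall x ρ, gk (pot f u) t x (t - 1) y * inner ℝ (y - x) e'| ≤ δ := by
  by_contra hcon
  push Not at hcon
  have key : ∀ n : ℕ, ∃ (t : ℝ) (x e e' : E N), (n : ℝ) + 1 ≤ t ∧ NDir U (1 / ((n : ℝ) + 1)) x e ∧
      |infDist x U - cc * t| ≤ 1 / ((n : ℝ) + 1) * t ∧ -dx u e t x ≤ 1 / ((n : ℝ) + 1) ∧
      ‖e'‖ = 1 ∧
      δ < |∫ y in closedBall x ρ, gk (pot f u) t x (t - 1) y * inner ℝ (y - x) e'| := by
    intro n
    obtain ⟨t, ht, x, e, a1, a2, a3, e', a4, a5⟩ := hcon (1 / ((n : ℝ) + 1)) (by positivity)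
      ((n : ℝ) + 1) (by positivity)
    exact ⟨t, x, e, e', ht, a1, a2, a3, a4, a5⟩
  choose t0 x0 e0 e0' g1 g2 g3 g4 g5 g6 using key
  have ht0 : Tendsto t0 atTop atTop :=
    tendsto_atTop_mono g1 (tendsto_atTop_add_const_right _ _ tendsto_natCast_atTop_atTop)
  obtain ⟨σ, w, hσ, hw, hlim⟩ := hEXT N f K U u hS.lip hS.sol t0 x0 ht0
  set t : ℕ → ℝ := t0 ∘ σ with htdef
  set x : ℕ → E N := x0 ∘ σ with hxdef
  set e : ℕ → E N := e0 ∘ σ with hedef
  set e' : ℕ → E N := e0' ∘ σ with he'def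
  have ht : Tendsto t atTop atTop := ht0.comp hσ.tendsto_atTop
  have hκ : Tendsto (fun n => 1 / ((σ n : ℝ) + 1)) atTop (𝓝 0) :=
    (tendsto_one_div_add_atTop_nhds_zero_nat (𝕜 := ℝ)).comp hσ.tendsto_atTop
  have hconst : ∀ r < 0, ∀ y, w r y = w r 0 := fun r hr y =>
    lim_const hPAST hS hcc hF ht hκ (fun n => g2 (σ n)) (fun n => g3 (σ n)) (fun n => g4 (σ n))
      hlim hr y
  obtain ⟨hPt, -, -, -⟩ := hLINU N f K U u hS.reac hS.lip hS.sol
  obtain ⟨-, hfc, -, -⟩ := hFPC f K hS.reac hS.lip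
  set V : ℕ → ℝ → E N → ℝ := fun n τ y => pot f u (t n + τ) (x n + y) with hV
  have hVPt : ∀ n, Pt K (V n) := fun n => Pt_shift hPt (t n) (x n)
  have hWPt : Pt K (potE f w) := Pt_potE hFPC hS.reac hS.lip hw
  have hVW : ∀ r ∈ Ioo (-1 : ℝ) 0, ∀ y, Tendsto (fun n => V n r y) atTop (𝓝 (potE f w r y)) := by
    intro r _ y
    have h1 : Tendsto (fun n => u (t n + r) (x n + y)) atTop (𝓝[Icc 0 1] (w r y)) := by
      refine tendsto_nhdsWithin_iff.2 ⟨hlim.tendsto r y, ?_⟩
      filter_upwards [ht.eventually_ge_atTop (1 - r)] with n hn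
      exact ⟨hS.sol.nonneg (by linarith) _, hS.sol.le_one (by linarith) _⟩
    have h2 : Tendsto (fun n => fp f (u (t n + r) (x n + y))) atTop (𝓝 (fp f (w r y))) :=
      (hfc (w r y) (hw.2 r y)).tendsto.comp h1
    refine h2.congr' ?_
    filter_upwards [ht.eventually_ge_atTop (1 - r)] with n hn
    rw [hV]
    simp only [pot]
    rw [if_pos (by linarith)]
  have hgk := hKCV N K (-1) 0 V (potE f w) hVPt hWPt (by norm_num) hVW
  have heven : ∀ y, gk (potE f w) 0 0 (-1) (-y) = gk (potE f w) 0 0 (-1) y := by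
    intro y
    have h1 := hKRFL N (potE f w) (-1) 0 (by norm_num) (by
      intro r hr z
      unfold potE
      rw [hconst r hr.2 (-z), hconst r hr.2 z]) 0 y
    rwa [neg_zero] at h1
  -- the integrals in the moving frame
  have htr : ∀ n, ∫ y in closedBall (x n) ρ, gk (pot f u) (t n) (x n) (t n - 1) y *
      inner ℝ (y - x n) (e' n) =
      ∫ y in closedBall (0 : E N) ρ, gk (V n) 0 0 (-1) y * inner ℝ y (e' n) := by
    intro n
    rw [← integral_indicator measurableSet_closedBall,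
      ← integral_indicator measurableSet_closedBall, ← integral_add_left_eq_self _ (x n)]
    congr 1
    ext y
    have h1 := (hKINV N (pot f u)).1 (t n) (x n) 0 0 (-1) y
    rw [add_zero, add_zero] at h1
    have h2 : t n + -1 = t n - 1 := by ring
    rw [h2] at h1
    by_cases hy : y ∈ closedBall (0 : E N) ρ
    · have hy' : x n + y ∈ closedBall (x n) ρ := by
        rw [mem_closedBall, dist_eq_norm, add_sub_cancel_left]; rwa [mem_closedBall_zero_iff] at hy
      rw [indicator_of_mem hy', indicator_of_mem hy, add_sub_cancel_left, ← h1]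
    · have hy' : x n + y ∉ closedBall (x n) ρ := by
        rw [mem_closedBall, dist_eq_norm, add_sub_cancel_left]; rwa [mem_closedBall_zero_iff] at hy
      rw [indicator_of_notMem hy', indicator_of_notMem hy]
  set G : ℕ → E N → ℝ := fun n y => gk (V n) 0 0 (-1) y with hG
  set G0 : E N → ℝ := fun y => gk (potE f w) 0 0 (-1) y with hG0
  have hlt : (-1 : ℝ) < 0 := by norm_num
  have hGm : ∀ n, Measurable (G n) := fun n => Pool.Agent.H3.RF.gk_meas hKER (hVPt n) hlt 0
  have hG0m : Measurable G0 := Pool.Agent.H3.RF.gk_meas hKER hWPt hlt 0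
  have hbd : ∀ n y, 0 ≤ G n y ∧ G n y ≤ Real.exp K * hk 1 (0 - y) := by
    intro n y
    refine ⟨Pool.Agent.H3.RF.gk_nonneg hKER (hVPt n) hlt 0 y, ?_⟩
    have := ((hKER N K (V n) (hVPt n)).2.1 (-1) 0 hlt 0 y).2
    simpa using this
  have hbd0 : ∀ y, 0 ≤ G0 y ∧ G0 y ≤ Real.exp K * hk 1 (0 - y) := by
    intro y
    refine ⟨Pool.Agent.H3.RF.gk_nonneg hKER hWPt hlt 0 y, ?_⟩
    have := ((hKER N K _ hWPt).2.1 (-1) 0 hlt 0 y).2
    simpa using this
  have hki : Integrable (fun y : E N => hk 1 (0 - y)) :=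
    Pool.Agent.H29.TF.integrable_hk_sub one_pos 0
  have hint : ∀ n, Integrable (fun y => G n y * inner ℝ y (e' n))
      (volume.restrict (closedBall (0 : E N) ρ)) := by
    intro n
    refine Integrable.mono' (((hki.const_mul (Real.exp K)).mul_const ρ).restrict)
      (((hGm n).mul (by fun_prop)).aestronglyMeasurable) ?_
    refine (ae_restrict_iff' measurableSet_closedBall).2 (ae_of_all _ fun y hy => ?_)
    rw [Real.norm_eq_abs, abs_mul, abs_of_nonneg (hbd n y).1]
    refine mul_le_mul (hbd n y).2 ?_ (abs_nonneg _) ((hbd n y).1.trans (hbd n y).2)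
    refine (abs_real_inner_le_norm _ _).trans ?_
    have : ‖e' n‖ = 1 := g5 (σ n)
    rw [this, mul_one]
    exact mem_closedBall_zero_iff.1 hy
  have hint0 : ∀ n, Integrable (fun y => G0 y * inner ℝ y (e' n))
      (volume.restrict (closedBall (0 : E N) ρ)) := by
    intro n
    refine Integrable.mono' (((hki.const_mul (Real.exp K)).mul_const ρ).restrict)
      ((hG0m.mul (by fun_prop)).aestronglyMeasurable) ?_
    refine (ae_restrict_iff' measurableSet_closedBall).2 (ae_of_all _ fun y hy => ?_)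
    rw [Real.norm_eq_abs, abs_mul, abs_of_nonneg (hbd0 y).1]
    refine mul_le_mul (hbd0 y).2 ?_ (abs_nonneg _) ((hbd0 y).1.trans (hbd0 y).2)
    refine (abs_real_inner_le_norm _ _).trans ?_
    have : ‖e' n‖ = 1 := g5 (σ n)
    rw [this, mul_one]
    exact mem_closedBall_zero_iff.1 hy
  -- difference to the even kernel
  have hdiffle : ∀ n, |∫ y in closedBall (0 : E N) ρ, G n y * inner ℝ y (e' n)| ≤
      ∫ y in closedBall (0 : E N) ρ, |G n y - G0 y| * ρ := by
    intro n
    have h1 := odd_moment G0 heven ρ (e' n)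
    have h2 : ∫ y in closedBall (0 : E N) ρ, G n y * inner ℝ y (e' n) =
        ∫ y in closedBall (0 : E N) ρ, (G n y * inner ℝ y (e' n) - G0 y * inner ℝ y (e' n)) := by
      rw [integral_sub (hint n) (hint0 n), h1, sub_zero]
    rw [h2]
    refine (abs_integral_le_integral_abs).trans ?_
    refine integral_mono_ae ((hint n).sub (hint0 n)).abs ?_ ?_
    · refine Integrable.mul_const (Integrable.abs ?_) _
      refine (Integrable.sub ?_ ?_)
      · exact (Integrable.mono' (hki.const_mul (Real.exp K)) (hGm n).aestronglyMeasurable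
          (ae_of_all _ fun y => by
            rw [Real.norm_eq_abs, abs_of_nonneg (hbd n y).1]; exact (hbd n y).2)).restrict
      · exact (Integrable.mono' (hki.const_mul (Real.exp K)) hG0m.aestronglyMeasurable
          (ae_of_all _ fun y => by
            rw [Real.norm_eq_abs, abs_of_nonneg (hbd0 y).1]; exact (hbd0 y).2)).restrict
    · refine (ae_restrict_iff' measurableSet_closedBall).2 (ae_of_all _ fun y hy => ?_)
      simp only
      rw [← sub_mul, abs_mul]
      refine mul_le_mul_of_nonneg_left ?_ (abs_nonneg _)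
      refine (abs_real_inner_le_norm _ _).trans ?_
      have : ‖e' n‖ = 1 := g5 (σ n)
      rw [this, mul_one]
      exact mem_closedBall_zero_iff.1 hy
  have hlimI : Tendsto (fun n => ∫ y in closedBall (0 : E N) ρ, |G n y - G0 y| * ρ) atTop
      (𝓝 0) := by
    have h0 : (0 : ℝ) = ∫ y in closedBall (0 : E N) ρ, (0 : ℝ) := by simp
    rw [h0]
    refine tendsto_integral_of_dominated_convergence
      (fun y => (Real.exp K * hk 1 (0 - y) + Real.exp K * hk 1 (0 - y)) * ρ) ?_ ?_ ?_ ?_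
    · intro n
      exact ((((hGm n).sub hG0m).norm).mul_const ρ).aestronglyMeasurable
    · exact (((hki.const_mul _).add (hki.const_mul _)).mul_const ρ).restrict
    · intro n
      refine ae_of_all _ fun y => ?_
      rw [Real.norm_eq_abs, abs_mul, abs_abs, abs_of_pos hρ]
      refine mul_le_mul_of_nonneg_right ?_ hρ.le
      have h1 := hbd n y
      have h2 := hbd0 y
      rw [abs_le]
      constructor <;> linarith [h1.1, h1.2, h2.1, h2.2]
    · refine ae_of_all _ fun y => ?_
      have h1 : Tendsto (fun n => G n y) atTop (𝓝 (G0 y)) := hgk 0 y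
      have h2 := ((h1.sub_const (G0 y)).abs).mul_const ρ
      simpa using h2
  obtain ⟨n, hn⟩ := (hlimI.eventually_lt_const hδ).exists
  have h1 := g6 (σ n)
  have h2 := htr n
  have h3 := hdiffle n
  have h4 : δ < |∫ y in closedBall (x n) ρ, gk (pot f u) (t n) (x n) (t n - 1) y *
      inner ℝ (y - x n) (e' n)| := h1
  rw [h2] at h4
  linarith

end Pool.Agent.H24.RF.Even
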