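import Pool.Agent.H24.RF.Even
import Pool.Agent.H28.RF.ENT

/-!
# MP_609556_an, module LIA: local gain where the directional derivative is small
-/

open MeasureTheory Set Filter Topology Metric
open Pool.Agent.H29.TF (hk P)
open Pool.Agent.H91.RD Pool.Agent.H91.RF

namespace Pool.Agent.H24.RF.LIA

open Pool.Agent.H24.RF.Even

theorem abs_laplacian_le {N : ℕ} (g : E N → ℝ) (x : E N) :
    |Laplacian.laplacian g x| ≤ N * ‖fderiv ℝ (fun z => fderiv ℝ g z) x‖ := by
  rw [InnerProductSpace.laplacian_eq_iteratedFDeriv_orthonormalBasis g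
    (EuclideanSpace.basisFun (Fin N) ℝ)]
  have h1 : ∀ i, |iteratedFDeriv ℝ 2 g x ![EuclideanSpace.basisFun (Fin N) ℝ i,
      EuclideanSpace.basisFun (Fin N) ℝ i]| ≤ ‖fderiv ℝ (fun z => fderiv ℝ g z) x‖ := by
    intro i
    rw [iteratedFDeriv_two_apply]
    have h2 := ((fderiv ℝ (fderiv ℝ g) x) (EuclideanSpace.basisFun (Fin N) ℝ i)).le_opNorm
      (EuclideanSpace.basisFun (Fin N) ℝ i)
    have h3 := (fderiv ℝ (fderiv ℝ g) x).le_opNorm (EuclideanSpace.basisFun (Fin N) ℝ i)
    have h4 : ‖EuclideanSpace.basisFun (Fin N) ℝ i‖ = 1 :=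
      (EuclideanSpace.basisFun (Fin N) ℝ).norm_eq_one i
    rw [h4, mul_one] at h2 h3
    exact h2.trans h3
  calc |∑ i, iteratedFDeriv ℝ 2 g x ![EuclideanSpace.basisFun (Fin N) ℝ i,
      EuclideanSpace.basisFun (Fin N) ℝ i]| ≤ ∑ i, |iteratedFDeriv ℝ 2 g x
        ![EuclideanSpace.basisFun (Fin N) ℝ i, EuclideanSpace.basisFun (Fin N) ℝ i]| :=
        Finset.abs_sum_le_sum_abs _ _
    _ ≤ ∑ _i : Fin N, ‖fderiv ℝ (fun z => fderiv ℝ g z) x‖ := Finset.sum_le_sum fun i _ => h1 i
    _ = N * ‖fderiv ℝ (fun z => fderiv ℝ g z) x‖ := by simp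

/-- the function `h` of the module at time `s` -/
noncomputable def hF {N : ℕ} (u : ℝ → E N → ℝ) (e : E N) (r s : ℝ) (y : E N) : ℝ :=
  max (-dt u s y - -dx u e s y) 0 + r * max (-dx u e s y) 0

theorem abs_dx_le {N : ℕ} (u : ℝ → E N → ℝ) (e : E N) (he : ‖e‖ = 1) (t : ℝ) (x : E N) :
    |dx u e t x| ≤ gr u t x := by
  unfold dx gr
  have := (fderiv ℝ (u t) x).le_opNorm e
  rwa [he, mul_one, Real.norm_eq_abs] at this

/-- one unit of time earlier `h` is almost constant in balls -/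
theorem ball_values (hPAST : T_PAST) {N : ℕ} {f : ℝ → ℝ} {K cc C0 C9 η0 : ℝ} {U : Set (E N)}
    {u : ℝ → E N → ℝ} (hS : Stg f K U u) (hcc : 0 < cc) (hFr : Frm U u cc C0 C9 η0) (ρ : ℝ)
    (hρ : 0 < ρ) :
    ∃ C1 ≥ 1, ∃ η > 0, ∃ T > 0, ∀ t ≥ T, ∀ x e, NDir U η x e → |infDist x U - cc * t| ≤ η * t →
      ∀ r, 0 ≤ r → r ≤ 1 → ∀ y ∈ closedBall x ρ,
      |hF u e r (t - 1) y - max (-f (u (t - 1) x)) 0| ≤ C1 * -dx u e t x := by
  obtain ⟨C, hC1, η, hη, T, hT, hP⟩ := hPAST N f K cc C0 C9 η0 U u hS hcc hFr 1 one_pos ρ hρ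
  have hK := hS.lip.K0
  refine ⟨(N + K * ρ + 2) * C, ?_, η, hη, T + 1, by linarith, fun t ht x e hnd hd r hr0 hr1 y hy => ?_⟩
  · have h1 : (1 : ℝ) ≤ N + K * ρ + 2 := by
      have : 0 ≤ (N : ℝ) + K * ρ := by positivity
      linarith
    exact one_le_mul_of_one_le_of_one_le h1 hC1
  have ht1 : T ≤ t := by linarith
  have ht0 : 0 < t - 1 := by linarith
  set p : ℝ := -dx u e t x with hp
  have hgr : ∀ z ∈ closedBall x ρ, gr u (t - 1) z ≤ C * p ∧
      ‖fderiv ℝ (fun z => fderiv ℝ (u (t - 1)) z) z‖ ≤ C * p := by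
    intro z hz
    have h1 := (hP t ht1 x e hnd hd z hz).1
    have h2 : 0 ≤ gr u (t - 1) z := norm_nonneg _
    have h3 := norm_nonneg (fderiv ℝ (fun z => fderiv ℝ (u (t - 1)) z) z)
    constructor <;> linarith
  have hx : x ∈ closedBall x ρ := mem_closedBall_self hρ.le
  have hmv : |u (t - 1) y - u (t - 1) x| ≤ C * p * ρ := by
    have h1 := (convex_closedBall x ρ).norm_image_sub_le_of_norm_fderiv_le
      (f := u (t - 1)) (C := C * p) (fun z _ =>
        ((hS.sol.sol.c2 (t - 1) ht0).differentiable (by norm_num)) z)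
      (fun z hz => (hgr z hz).1) hx hy
    rw [Real.norm_eq_abs] at h1
    refine h1.trans (mul_le_mul_of_nonneg_left ?_ ((norm_nonneg _).trans (hgr x hx).1))
    rwa [← dist_eq_norm]
  have hf : |f (u (t - 1) y) - f (u (t - 1) x)| ≤ K * (C * p * ρ) :=
    (hS.lip.lip _ _).trans (mul_le_mul_of_nonneg_left hmv hK.le)
  have hlap : |Laplacian.laplacian (u (t - 1)) y| ≤ N * (C * p) :=
    (abs_laplacian_le _ y).trans (mul_le_mul_of_nonneg_left (hgr y hy).2 (Nat.cast_nonneg N))
  have hdt : dt u (t - 1) y = Laplacian.laplacian (u (t - 1)) y + f (u (t - 1) y) :=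
    hS.sol.sol.eqn (t - 1) ht0 y
  have hdx : |dx u e (t - 1) y| ≤ C * p := (abs_dx_le u e hnd.1 (t - 1) y).trans (hgr y hy).1
  have h1 : |max (-dt u (t - 1) y - -dx u e (t - 1) y) 0 - max (-f (u (t - 1) x)) 0| ≤
      |(-dt u (t - 1) y - -dx u e (t - 1) y) - -f (u (t - 1) x)| :=
    abs_max_sub_max_le_abs _ _ _
  have h2 : |(-dt u (t - 1) y - -dx u e (t - 1) y) - -f (u (t - 1) x)| ≤
      N * (C * p) + K * (C * p * ρ) + C * p := by
    rw [hdt]
    rw [abs_le] at hlap hf hdx ⊢
    constructor <;> linarith [hlap.1, hlap.2, hf.1, hf.2, hdx.1, hdx.2]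
  have h3 : |r * max (-dx u e (t - 1) y) 0| ≤ C * p := by
    rw [abs_mul, abs_of_nonneg hr0, abs_of_nonneg (le_max_right _ _)]
    have h4 : max (-dx u e (t - 1) y) 0 ≤ |dx u e (t - 1) y| :=
      max_le (neg_le_abs _) (abs_nonneg _)
    have h5 : 0 ≤ max (-dx u e (t - 1) y) 0 := le_max_right _ _
    have h6 : r * max (-dx u e (t - 1) y) 0 ≤ 1 * max (-dx u e (t - 1) y) 0 :=
      mul_le_mul_of_nonneg_right hr1 h5
    linarith
  have h4 : hF u e r (t - 1) y - max (-f (u (t - 1) x)) 0 =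
      (max (-dt u (t - 1) y - -dx u e (t - 1) y) 0 - max (-f (u (t - 1) x)) 0) +
      r * max (-dx u e (t - 1) y) 0 := by unfold hF; ring
  rw [h4]
  refine (abs_add_le _ _).trans ?_
  have h5 : (N + K * ρ + 2) * C * p = N * (C * p) + K * (C * p * ρ) + C * p + C * p := by ring
  rw [h5]
  linarith

/-- integrability of the second moment of the heat kernel -/
theorem hk_sq_int {N : ℕ} {S : ℝ} (hS : 0 < S) (x : E N) :
    Integrable (fun y : E N => hk S (x - y) * ‖y - x‖ ^ 2) := by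
  have hi2 : Integrable (fun y : E N => hk S (x - y) * Real.exp (‖y - x‖ ^ 2 / (8 * S))) := by
    have hexp2 : (fun y : E N => hk S (x - y) * Real.exp (‖y - x‖ ^ 2 / (8 * S))) =
        fun y => (2 : ℝ) ^ ((N : ℝ) / 2) * hk (2 * S) (x - y) := by
      ext y; exact Pool.Agent.H28.RF.ENT.hk_exp2 hS x y
    rw [hexp2]
    exact (Pool.Agent.H29.TF.integrable_hk_sub (by positivity) _).const_mul _
  refine Integrable.mono' (hi2.const_mul (8 * S)) (Measurable.aestronglyMeasurable
    (by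
      refine Measurable.mul ?_ ?_
      · exact ((Pool.Agent.H29.TF.continuous_hk S).comp (by fun_prop)).measurable
      · fun_prop)) (Filter.Eventually.of_forall fun y => ?_)
  rw [Real.norm_of_nonneg (mul_nonneg (Pool.Agent.H29.TF.hk_pos hS _).le (by positivity))]
  have h1 := Real.add_one_le_exp (‖y - x‖ ^ 2 / (8 * S))
  have h2 : ‖y - x‖ ^ 2 ≤ 8 * S * Real.exp (‖y - x‖ ^ 2 / (8 * S)) := by
    have h3 : ‖y - x‖ ^ 2 / (8 * S) ≤ Real.exp (‖y - x‖ ^ 2 / (8 * S)) := by linarith
    rw [div_le_iff₀ (by positivity)] at h3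
    linarith
  have h4 := mul_le_mul_of_nonneg_left h2 (Pool.Agent.H29.TF.hk_pos hS (x - y)).le
  linarith

/-- the estimate of the mean: `G` is the kernel, `h` is almost constant on the ball, the kernel is
almost even on the ball -/
theorem mean_small {N : ℕ} {K ρ δ c1 C1 p M Qb φ : ℝ} {G h : E N → ℝ} {x e : E N} (he : ‖e‖ = 1)
    (hρ : 0 < ρ) (hGm : Measurable G) (hhm : Measurable h)
    (hG : ∀ y, 0 ≤ G y ∧ G y ≤ Real.exp K * hk 1 (x - y)) (hh : ∀ y, 0 ≤ h y ∧ h y ≤ M)
    (hc1 : 0 < c1) (hB : c1 ≤ ∫ y in closedBall x ρ, G y) (hp : 0 ≤ p) (hC1 : 0 ≤ C1)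
    (hφ0 : 0 ≤ φ) (hφ : ∀ y ∈ closedBall x ρ, |h y - φ| ≤ C1 * p)
    (hev : |∫ y in closedBall x ρ, G y * inner ℝ (y - x) e| ≤ δ)
    (hQ : ∫ y, G y * h y * ‖y - x‖ ^ 2 ≤ Qb * ∫ y, G y * h y) :
    |∫ y, G y * h y * inner ℝ (y - x) e| ≤
      ((∫ y, G y * h y) / c1 + C1 * p) * δ + C1 * p * ρ * Real.exp K +
        Qb / ρ * ∫ y, G y * h y := by
  have hM : 0 ≤ M := (hh x).1.trans (hh x).2
  have hki : Integrable (fun y : E N => hk 1 (x - y)) :=
    Pool.Agent.H29.TF.integrable_hk_sub one_pos x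
  have hGi : Integrable G := Integrable.mono' (hki.const_mul (Real.exp K))
    hGm.aestronglyMeasurable (ae_of_all _ fun y => by
      rw [Real.norm_eq_abs, abs_of_nonneg (hG y).1]; exact (hG y).2)
  have hGhi : Integrable (fun y => G y * h y) :=
    Integrable.mono' (hGi.mul_const M) (hGm.mul hhm).aestronglyMeasurable (ae_of_all _ fun y => by
      rw [Real.norm_eq_abs, abs_of_nonneg (mul_nonneg (hG y).1 (hh y).1)]
      exact mul_le_mul_of_nonneg_left (hh y).2 (hG y).1)
  have hGh2 : Integrable (fun y => G y * h y * ‖y - x‖ ^ 2) := by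
    refine Integrable.mono' (((hk_sq_int one_pos x).const_mul (Real.exp K)).const_mul M)
      ((hGm.mul hhm).mul (by fun_prop)).aestronglyMeasurable (ae_of_all _ fun y => ?_)
    rw [Real.norm_eq_abs, abs_of_nonneg (mul_nonneg (mul_nonneg (hG y).1 (hh y).1)
      (by positivity))]
    have h1 : G y * h y ≤ Real.exp K * hk 1 (x - y) * M :=
      mul_le_mul (hG y).2 (hh y).2 (hh y).1 ((hG y).1.trans (hG y).2)
    have h2 := mul_le_mul_of_nonneg_right h1 (sq_nonneg ‖y - x‖)
    linarith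
  have hin : ∀ y, |inner ℝ (y - x) e| ≤ ‖y - x‖ := fun y => by
    have := abs_real_inner_le_norm (y - x) e
    rwa [he, mul_one] at this
  have hGh1 : Integrable (fun y => G y * h y * inner ℝ (y - x) e) := by
    refine Integrable.mono' (hGhi.add hGh2)
      ((hGm.mul hhm).mul (by fun_prop)).aestronglyMeasurable (ae_of_all _ fun y => ?_)
    rw [Real.norm_eq_abs, abs_mul, abs_of_nonneg (mul_nonneg (hG y).1 (hh y).1)]
    have h1 : |inner ℝ (y - x) e| ≤ 1 + ‖y - x‖ ^ 2 := by
      have := hin y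
      nlinarith [sq_nonneg (‖y - x‖ - 1), norm_nonneg (y - x)]
    have h2 := mul_le_mul_of_nonneg_left h1 (mul_nonneg (hG y).1 (hh y).1)
    simp only [Pi.add_apply]
    linarith
  set nrm : ℝ := ∫ y, G y * h y with hnrm
  have hmB : MeasurableSet (closedBall x ρ) := measurableSet_closedBall
  -- outside the ball
  have hout : |∫ y in (closedBall x ρ)ᶜ, G y * h y * inner ℝ (y - x) e| ≤ Qb / ρ * nrm := by
    have h1 : |∫ y in (closedBall x ρ)ᶜ, G y * h y * inner ℝ (y - x) e| ≤
        ∫ y in (closedBall x ρ)ᶜ, G y * h y * ‖y - x‖ ^ 2 / ρ := by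
      refine abs_integral_le_integral_abs.trans ?_
      refine integral_mono_ae hGh1.abs.restrict (hGh2.div_const ρ).restrict ?_
      refine (ae_restrict_iff' hmB.compl).2 (ae_of_all _ fun y hy => ?_)
      simp only
      rw [abs_mul, abs_of_nonneg (mul_nonneg (hG y).1 (hh y).1), mul_div_assoc]
      refine mul_le_mul_of_nonneg_left ?_ (mul_nonneg (hG y).1 (hh y).1)
      rw [le_div_iff₀ hρ]
      have h2 : ρ < ‖y - x‖ := by
        rw [mem_compl_iff, mem_closedBall, dist_eq_norm, not_le] at hy; exact hy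
      have h3 := hin y
      have h4 : |inner ℝ (y - x) e| * ρ ≤ ‖y - x‖ * ‖y - x‖ :=
        mul_le_mul h3 h2.le hρ.le (norm_nonneg _)
      rw [sq]; exact h4
    have h5 : ∫ y in (closedBall x ρ)ᶜ, G y * h y * ‖y - x‖ ^ 2 / ρ ≤
        ∫ y, G y * h y * ‖y - x‖ ^ 2 / ρ :=
      setIntegral_le_integral (hGh2.div_const ρ) (ae_of_all _ fun y => by
        have := mul_nonneg (mul_nonneg (hG y).1 (hh y).1) (sq_nonneg ‖y - x‖)
        exact div_nonneg this hρ.le)
    rw [integral_div] at h1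
    rw [integral_div, integral_div] at h5
    have h6 : (∫ y, G y * h y * ‖y - x‖ ^ 2) / ρ ≤ Qb * nrm / ρ := by
      gcongr
    have h7 : Qb * nrm / ρ = Qb / ρ * nrm := by ring
    linarith
  -- the value `φ`
  have hGB : Integrable G (volume.restrict (closedBall x ρ)) := hGi.restrict
  have hmass : ∫ y in closedBall x ρ, G y ≤ Real.exp K := by
    have h1 : ∫ y in closedBall x ρ, G y ≤ ∫ y, G y :=
      setIntegral_le_integral hGi (ae_of_all _ fun y => (hG y).1)
    have h2 : ∫ y, G y ≤ ∫ y, Real.exp K * hk 1 (x - y) :=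
      integral_mono hGi (hki.const_mul _) fun y => (hG y).2
    rw [integral_const_mul, Pool.Agent.H29.TF.integral_hk_sub one_pos, mul_one] at h2
    linarith
  have hφ2 : φ ≤ nrm / c1 + C1 * p := by
    rcases le_total φ (C1 * p) with h1 | h1
    · have : 0 ≤ nrm / c1 := div_nonneg (integral_nonneg fun y => mul_nonneg (hG y).1 (hh y).1)
        hc1.le
      linarith
    · have h2 : (φ - C1 * p) * ∫ y in closedBall x ρ, G y ≤ nrm := by
        rw [← integral_const_mul]
        refine le_trans ?_ (setIntegral_le_integral hGhi (ae_of_all _ fun y =>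
          mul_nonneg (hG y).1 (hh y).1) (s := closedBall x ρ))
        refine integral_mono_ae (hGB.const_mul _) hGhi.restrict ?_
        refine (ae_restrict_iff' hmB).2 (ae_of_all _ fun y hy => ?_)
        simp only
        rw [mul_comm]
        refine mul_le_mul_of_nonneg_left ?_ (hG y).1
        have := hφ y hy
        rw [abs_le] at this
        linarith [this.1]
      have h3 : (φ - C1 * p) * c1 ≤ (φ - C1 * p) * ∫ y in closedBall x ρ, G y :=
        mul_le_mul_of_nonneg_left hB (by linarith)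
      have h4 : φ - C1 * p ≤ nrm / c1 := by
        rw [le_div_iff₀ hc1]; linarith
      linarith
  -- inside the ball
  have hinB : Integrable (fun y => G y * inner ℝ (y - x) e)
      (volume.restrict (closedBall x ρ)) := by
    refine Integrable.mono' ((hGi.mul_const ρ).restrict)
      ((hGm.mul (by fun_prop)).aestronglyMeasurable) ?_
    refine (ae_restrict_iff' hmB).2 (ae_of_all _ fun y hy => ?_)
    rw [Real.norm_eq_abs, abs_mul, abs_of_nonneg (hG y).1]
    refine mul_le_mul_of_nonneg_left ((hin y).trans ?_) (hG y).1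
    rwa [← dist_eq_norm]
  have hin1 : |∫ y in closedBall x ρ, G y * h y * inner ℝ (y - x) e| ≤
      φ * δ + C1 * p * ρ * Real.exp K := by
    have h1 : ∫ y in closedBall x ρ, G y * h y * inner ℝ (y - x) e =
        φ * (∫ y in closedBall x ρ, G y * inner ℝ (y - x) e) +
        ∫ y in closedBall x ρ, G y * (h y - φ) * inner ℝ (y - x) e := by
      rw [← integral_const_mul, ← integral_add (hinB.const_mul φ)]
      · refine integral_congr_ae (ae_of_all _ fun y => ?_)
        simp only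
        ring
      · have : (fun y => G y * (h y - φ) * inner ℝ (y - x) e) =
            fun y => G y * h y * inner ℝ (y - x) e - φ * (G y * inner ℝ (y - x) e) := by
          ext y; ring
        rw [this]
        exact hGh1.restrict.sub (hinB.const_mul φ)
    have h2 : |∫ y in closedBall x ρ, G y * (h y - φ) * inner ℝ (y - x) e| ≤
        ∫ y in closedBall x ρ, G y * (C1 * p * ρ) := by
      refine abs_integral_le_integral_abs.trans ?_
      have hi : Integrable (fun y => G y * (h y - φ) * inner ℝ (y - x) e)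
          (volume.restrict (closedBall x ρ)) := by
        have : (fun y => G y * (h y - φ) * inner ℝ (y - x) e) =
            fun y => G y * h y * inner ℝ (y - x) e - φ * (G y * inner ℝ (y - x) e) := by
          ext y; ring
        rw [this]
        exact hGh1.restrict.sub (hinB.const_mul φ)
      refine integral_mono_ae hi.abs (hGB.mul_const _) ?_
      refine (ae_restrict_iff' hmB).2 (ae_of_all _ fun y hy => ?_)
      simp only
      rw [abs_mul, abs_mul, abs_of_nonneg (hG y).1, mul_assoc]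
      refine mul_le_mul_of_nonneg_left ?_ (hG y).1
      refine mul_le_mul (hφ y hy) ((hin y).trans ?_) (abs_nonneg _) (mul_nonneg hC1 hp)
      rwa [← dist_eq_norm]
    rw [integral_mul_const] at h2
    have h3 : (∫ y in closedBall x ρ, G y) * (C1 * p * ρ) ≤ Real.exp K * (C1 * p * ρ) :=
      mul_le_mul_of_nonneg_right hmass (by positivity)
    rw [h1]
    refine (abs_add_le _ _).trans ?_
    rw [abs_mul, abs_of_nonneg hφ0]
    have h4 := mul_le_mul_of_nonneg_left hev hφ0
    linarith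
  have hsplit := integral_add_compl hmB hGh1
  rw [← hsplit]
  refine (abs_add_le _ _).trans ?_
  have hδ0 : 0 ≤ δ := (abs_nonneg _).trans hev
  have h1 := mul_le_mul_of_nonneg_right hφ2 hδ0
  linarith

theorem hk_ball_pos {N : ℕ} {ρ : ℝ} (hρ : 0 < ρ) : 0 < ∫ z in closedBall (0 : E N) ρ, hk 1 z := by
  have hsup : Function.support (fun z : E N => hk 1 z) = univ := by
    ext z
    simp only [Function.mem_support, mem_univ, iff_true]
    exact (Pool.Agent.H29.TF.hk_pos one_pos z).ne'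
  rw [setIntegral_pos_iff_support_of_nonneg_ae
    (ae_of_all _ fun z => (Pool.Agent.H29.TF.hk_pos one_pos z).le)
    (Pool.Agent.H29.TF.integrable_hk one_pos).integrableOn, hsup, univ_inter]
  exact measure_closedBall_pos volume 0 hρ

theorem hk_ball_shift {N : ℕ} (ρ : ℝ) (x : E N) :
    ∫ y in closedBall x ρ, hk 1 (x - y) = ∫ z in closedBall (0 : E N) ρ, hk 1 z := by
  rw [← integral_indicator measurableSet_closedBall,
    ← integral_indicator measurableSet_closedBall, ← integral_add_left_eq_self _ x]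
  congr 1
  ext y
  by_cases hy : y ∈ closedBall (0 : E N) ρ
  · have hy' : x + y ∈ closedBall x ρ := by
      rw [mem_closedBall, dist_eq_norm, add_sub_cancel_left]; rwa [mem_closedBall_zero_iff] at hy
    rw [indicator_of_mem hy', indicator_of_mem hy, sub_add_cancel_left,
      Pool.Agent.H29.TF.hk_neg]
  · have hy' : x + y ∉ closedBall x ρ := by
      rw [mem_closedBall, dist_eq_norm, add_sub_cancel_left]; rwa [mem_closedBall_zero_iff] at hy
    rw [indicator_of_notMem hy', indicator_of_notMem hy]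

/-- the final arithmetic -/
theorem final_arith {m nrm c1 C1 p β ρ Qb ηa EK : ℝ} (hβ : 0 < β) (hnrm : 0 < nrm) (hc1 : 0 < c1)
    (hC1 : 0 < C1) (hρ : 0 < ρ) (hEK : 0 < EK) (hp : p ≤ ηa * nrm)
    (hηa1 : ηa * (C1 * c1) ≤ 1) (hηa2 : ηa * (4 * β * (C1 * ρ * EK)) ≤ 1)
    (hQρ : Qb * (4 * β) ≤ ρ)
    (h : |m * nrm| ≤ (nrm / c1 + C1 * p) * (c1 / (8 * β)) + C1 * p * ρ * EK + Qb / ρ * nrm) :
    β * |m| ≤ 3 / 4 := by
  rw [abs_mul, abs_of_pos hnrm] at h
  have h1 : (nrm / c1 + C1 * p) * (c1 / (8 * β)) = nrm / (8 * β) + (p * (C1 * c1)) / (8 * β) := by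
    field_simp
  have h2 : p * (C1 * c1) ≤ nrm := by
    have := mul_le_mul_of_nonneg_right hp (by positivity : 0 ≤ C1 * c1)
    have h3 := mul_le_mul_of_nonneg_right hηa1 hnrm.le
    linarith
  have h3 : β * (C1 * p * ρ * EK) ≤ nrm / 4 := by
    have h4 := mul_le_mul_of_nonneg_right hp (by positivity : 0 ≤ 4 * β * (C1 * ρ * EK))
    have h5 := mul_le_mul_of_nonneg_right hηa2 hnrm.le
    linarith
  have h6 : β * (Qb / ρ * nrm) ≤ nrm / 4 := by
    have h7 : Qb / ρ ≤ 1 / (4 * β) := by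
      rw [div_le_div_iff₀ hρ (by positivity)]; linarith
    have h8 : β * (Qb / ρ * nrm) ≤ β * (1 / (4 * β) * nrm) :=
      mul_le_mul_of_nonneg_left (mul_le_mul_of_nonneg_right h7 hnrm.le) hβ.le
    have h9 : β * (1 / (4 * β) * nrm) = nrm / 4 := by field_simp
    linarith
  have h10 : β * ((nrm / c1 + C1 * p) * (c1 / (8 * β))) ≤ nrm / 4 := by
    rw [h1]
    have h11 : β * (nrm / (8 * β) + (p * (C1 * c1)) / (8 * β)) = (nrm + p * (C1 * c1)) / 8 := by
      field_simp
    rw [h11]
    linarith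
  have h12 : β * (|m| * nrm) ≤ 3 / 4 * nrm := by
    have := mul_le_mul_of_nonneg_left h hβ.le
    linarith
  have h13 : β * |m| * nrm ≤ 3 / 4 * nrm := by linarith
  exact le_of_mul_le_mul_right h13 hnrm

/-- [LIA] local gain where `p` is small against `-u_t` -/
theorem LIA (hPAST : T_PAST) (hEXT : T_EXT) (hKCV : T_KCV) (hKRFL : T_KRFL) (hKINV : T_KINV)
    (hLINU : T_LINU) (hFPC : T_FPC) (hKER : T_KER) (hKREP : T_KREP) (hENT : T_ENT) : T_LIA := by
  intro N f K cc C0 C9 η0 U u hS hcc hFr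
  obtain ⟨hPt, hVc, hLin, Cb, hCb⟩ := hLINU N f K U u hS.reac hS.lip hS.sol
  have hK := hPt.K0
  have hCb0 : 0 ≤ Cb := (norm_nonneg _).trans (hCb 1 le_rfl 0).1
  set β : ℝ := (K + 2) / cc with hβdef
  have hβ : 0 < β := by positivity
  have hβc : β * cc = K + 2 := by rw [hβdef]; field_simp
  set Qb : ℝ := 4 * N * Real.log 2 + 32 * β ^ 2 with hQb
  have hlog2 : 0 < Real.log 2 := Real.log_pos (by norm_num)
  have hQb0 : 0 < Qb := by
    have : 0 ≤ 4 * (N : ℝ) * Real.log 2 := by positivity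
    positivity
  set ρ : ℝ := 4 * β * Qb + 1 with hρdef
  have hρ : 0 < ρ := by positivity
  set c1 : ℝ := Real.exp (-K) * ∫ z in closedBall (0 : E N) ρ, hk 1 z with hc1def
  have hc1 : 0 < c1 := mul_pos (Real.exp_pos _) (hk_ball_pos hρ)
  obtain ⟨κ, hκ, Te, hTe, heven⟩ := even_box hPAST hEXT hKCV hKRFL hKINV hLINU hFPC hKER hS hcc
    hFr ρ (c1 / (8 * β)) hρ (by positivity)
  obtain ⟨C1, hC1, ηp, hηp, Tp, hTp, hball⟩ := ball_values hPAST hS hcc hFr ρ hρ
  obtain ⟨Tq, hTq, hpos⟩ := hFr.pos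
  have hC10 : 0 < C1 := by linarith
  have hη0 := hFr.hη0
  have heK := Real.exp_pos K
  set ηa : ℝ := min (min (1 / (C1 * c1)) (1 / (4 * β * (C1 * ρ * Real.exp K)))) (κ / (2 * Cb + 1))
    with hηa
  have hηa0 : 0 < ηa := by rw [hηa]; positivity
  have hηa1 : ηa * (C1 * c1) ≤ 1 := by
    have h1 : ηa ≤ 1 / (C1 * c1) := (min_le_left _ _).trans (min_le_left _ _)
    rwa [le_div_iff₀ (by positivity)] at h1
  have hηa2 : ηa * (4 * β * (C1 * ρ * Real.exp K)) ≤ 1 := by
    have h1 : ηa ≤ 1 / (4 * β * (C1 * ρ * Real.exp K)) := (min_le_left _ _).trans (min_le_right _ _)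
    rwa [le_div_iff₀ (by positivity)] at h1
  have hηa3 : ηa * (2 * Cb + 1) ≤ κ := by
    have h1 : ηa ≤ κ / (2 * Cb + 1) := min_le_right _ _
    rwa [le_div_iff₀ (by positivity)] at h1
  refine ⟨ηa, hηa0, min (min κ ηp) η0, by positivity, max (max Te Tp) (max Tq 2),
    lt_of_lt_of_le hTe ((le_max_left _ _).trans (le_max_left _ _)),
    fun t ht x e hnd hd r hr0 hr1 hsm => ?_⟩
  have hte : Te ≤ t := ((le_max_left _ _).trans (le_max_left _ _)).trans ht
  have htp : Tp ≤ t := ((le_max_right _ _).trans (le_max_left _ _)).trans ht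
  have htq : Tq ≤ t := ((le_max_left _ _).trans (le_max_right _ _)).trans ht
  have ht2 : 2 ≤ t := ((le_max_right _ _).trans (le_max_right _ _)).trans ht
  have ht0 : 0 < t := by linarith
  have he : ‖e‖ = 1 := hnd.1
  have hm1 : min (min κ ηp) η0 ≤ κ := (min_le_left _ _).trans (min_le_left _ _)
  have hm2 : min (min κ ηp) η0 ≤ ηp := (min_le_left _ _).trans (min_le_right _ _)
  have hm3 : min (min κ ηp) η0 ≤ η0 := min_le_right _ _
  have hd1 := hd.trans (mul_le_mul_of_nonneg_right hm1 ht0.le)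
  have hd2 := hd.trans (mul_le_mul_of_nonneg_right hm2 ht0.le)
  have hd3 := hd.trans (mul_le_mul_of_nonneg_right hm3 ht0.le)
  have hp0 := (hpos t htq x e (NDir.mono hnd hm3) hd3).1
  set p : ℝ := -dx u e t x with hpdef
  set F : ℝ := -dt u t x - p with hFdef
  have hF0 : 0 < F := by
    by_contra hcon
    have : ηa * F ≤ 0 := mul_nonpos_of_nonneg_of_nonpos hηa0.le (not_lt.1 hcon)
    linarith
  have hrp : 0 < r * p := mul_pos hr0 hp0
  have hbt := hCb t (by linarith) x
  have hFC : F ≤ 2 * Cb := by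
    have h1 := (neg_le_abs (dt u t x)).trans hbt.2.1
    linarith
  have hpκ : p ≤ κ := by
    have h1 : ηa * F ≤ ηa * (2 * Cb + 1) := mul_le_mul_of_nonneg_left (by linarith) hηa0.le
    linarith
  have hev := heven t hte x e (NDir.mono hnd hm1) hd1 hpκ e he
  have hbv := hball t htp x e (NDir.mono hnd hm2) hd2 r hr0.le hr1
  have h0eq : max F 0 + r * max p 0 = F + r * p := by
    rw [max_eq_left hF0.le, max_eq_left hp0.le]
  rw [h0eq]
  -- the function `h` at time `t - 1`
  have hfun : (fun y => max (-dt u (t - 1) y - -dx u e (t - 1) y) 0 +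
      r * max (-dx u e (t - 1) y) 0) = hF u e r (t - 1) := rfl
  rw [hfun]
  set h : E N → ℝ := hF u e r (t - 1) with hh
  have hlt : t - 1 < t := by linarith
  have hL := hLin (t - 1) t (by linarith) hlt
  have hdtm : Measurable (dt u (t - 1)) := hL.2.meas
  have hdxm : Measurable (dx u e (t - 1)) := (hL.1 e).meas
  have hhm : Measurable h := by
    have : h = fun y => max (-dt u (t - 1) y - -dx u e (t - 1) y) 0 +
      r * max (-dx u e (t - 1) y) 0 := rfl
    rw [this]
    exact ((hdtm.neg.sub hdxm.neg).max measurable_const).add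
      ((hdxm.neg.max measurable_const).const_mul r)
  have hb1 : ∀ y, |dt u (t - 1) y| ≤ Cb ∧ |dx u e (t - 1) y| ≤ Cb := by
    intro y
    have h1 := hCb (t - 1) (by linarith) y
    exact ⟨h1.2.1, (abs_dx_le u e he (t - 1) y).trans h1.1⟩
  have hhb : ∀ y, 0 ≤ h y ∧ h y ≤ 3 * Cb := by
    intro y
    have h1 := hb1 y
    have h2 : 0 ≤ max (-dx u e (t - 1) y) 0 := le_max_right _ _
    have h3 : max (-dx u e (t - 1) y) 0 ≤ Cb := max_le ((neg_le_abs _).trans h1.2) hCb0
    have h4 : max (-dt u (t - 1) y - -dx u e (t - 1) y) 0 ≤ 2 * Cb := by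
      refine max_le ?_ (by linarith)
      have h5 := (neg_le_abs (dt u (t - 1) y)).trans h1.1
      have h6 := (le_abs_self (dx u e (t - 1) y)).trans h1.2
      linarith
    have h7 : r * max (-dx u e (t - 1) y) 0 ≤ 1 * max (-dx u e (t - 1) y) 0 :=
      mul_le_mul_of_nonneg_right hr1 h2
    constructor
    · exact add_nonneg (le_max_right _ _) (mul_nonneg hr0.le h2)
    · have : h y = max (-dt u (t - 1) y - -dx u e (t - 1) y) 0 +
        r * max (-dx u e (t - 1) y) 0 := rfl
      linarith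
  set V : ℝ → E N → ℝ := pot f u with hVdef
  set G : E N → ℝ := fun y => gk V t x (t - 1) y with hGdef
  set nrm : ℝ := ∫ y, G y * h y with hnrm
  have hnle : F + r * p ≤ nrm := by
    have h1 := hKREP N K (t - 1) t V (dt u) hPt hL.2 (t - 1) t le_rfl hlt le_rfl x
    have h2 := hKREP N K (t - 1) t V (dx u e) hPt (hL.1 e) (t - 1) t le_rfl hlt le_rfl x
    have i1 := Pool.Agent.H3.RF.gk_int hKER hPt hlt x hdtm (fun y => (hb1 y).1)
    have i2 := Pool.Agent.H3.RF.gk_int hKER hPt hlt x hdxm (fun y => (hb1 y).2)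
    have i3 := Pool.Agent.H3.RF.gk_int hKER hPt hlt x hhm (fun y => by
      rw [abs_of_nonneg (hhb y).1]; exact (hhb y).2)
    have i1' : Integrable (fun y => -(gk V t x (t - 1) y * dt u (t - 1) y)) := i1.neg
    have i2' : Integrable (fun y => (1 - r) * (gk V t x (t - 1) y * dx u e (t - 1) y)) :=
      i2.const_mul _
    have h3 : F + r * p = ∫ y, (-(gk V t x (t - 1) y * dt u (t - 1) y) +
        (1 - r) * (gk V t x (t - 1) y * dx u e (t - 1) y)) := by
      rw [integral_add i1' i2', integral_neg, integral_const_mul, ← h1, ← h2, hFdef, hpdef]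
      ring
    rw [h3, hnrm]
    refine integral_mono (i1'.add i2') i3 fun y => ?_
    have h4 : -(gk V t x (t - 1) y * dt u (t - 1) y) +
        (1 - r) * (gk V t x (t - 1) y * dx u e (t - 1) y) =
        gk V t x (t - 1) y * ((-dt u (t - 1) y - -dx u e (t - 1) y) +
          r * (-dx u e (t - 1) y)) := by ring
    have h5 : h y = max (-dt u (t - 1) y - -dx u e (t - 1) y) 0 +
        r * max (-dx u e (t - 1) y) 0 := rfl
    have h6 : gk V t x (t - 1) y * ((-dt u (t - 1) y - -dx u e (t - 1) y) +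
          r * (-dx u e (t - 1) y)) ≤ gk V t x (t - 1) y * h y := by
      rw [h5]
      exact mul_le_mul_of_nonneg_left (add_le_add (le_max_left _ _)
        (mul_le_mul_of_nonneg_left (le_max_left _ _) hr0.le))
        (Pool.Agent.H3.RF.gk_nonneg hKER hPt hlt x y)
    rw [← h4] at h6
    exact h6
  have hnrm0 : 0 < nrm := by linarith
  by_contra hcon
  rw [not_le] at hcon
  obtain ⟨hE1', hE2⟩ := hENT N K 1 t V h x hPt one_pos hhm (fun y => (hhb y).1)
    ⟨3 * Cb, fun y => (hhb y).2⟩ hnrm0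
  have hE1 := hE1' e he
  have hGn : Gn V h β cc e 1 t x = Ex V h 1 t x (fun y => Real.log (h y)) +
    β * (Ex V h 1 t x (fun y => inner ℝ (y - x) e) + cc * 1) := rfl
  rw [hGn] at hcon
  have hlog : Real.log (F + r * p) ≤ Real.log nrm := Real.log_le_log (by linarith) hnle
  have hmdef : Ex V h 1 t x (fun y => inner ℝ (y - x) e) =
    (∫ y, G y * h y * inner ℝ (y - x) e) / nrm := rfl
  have hQdef : Ex V h 1 t x (fun y => ‖y - x‖ ^ 2) =
    (∫ y, G y * h y * ‖y - x‖ ^ 2) / nrm := rfl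
  have hnrm' : ∫ y, gk V t x (t - 1) y * h y = nrm := rfl
  rw [hnrm'] at hE1 hE2
  set m : ℝ := Ex V h 1 t x (fun y => inner ℝ (y - x) e) with hm
  set Q : ℝ := Ex V h 1 t x (fun y => ‖y - x‖ ^ 2) with hQ
  set Lg : ℝ := Ex V h 1 t x (fun y => Real.log (h y)) with hLg
  have k1 : m ^ 2 / 4 + β * m < -1 := by
    have : β * (m + cc * 1) = β * m + β * cc := by ring
    rw [this, hβc] at hcon
    linarith
  have k2 : m < 0 := by
    by_contra h1
    have : 0 ≤ β * m := mul_nonneg hβ.le (not_lt.1 h1)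
    linarith [sq_nonneg m]
  have k3 : -m ≤ 4 * β := by
    by_contra h1
    rw [not_le] at h1
    have : 0 < (-m) * (-m - 4 * β) := mul_pos (by linarith) (by linarith)
    linarith
  have k4 : Q ≤ Qb := by
    have h1 : β * (m + cc * 1) = β * m + β * cc := by ring
    rw [h1, hβc] at hcon
    have h2 : β * (-m) ≤ β * (4 * β) := mul_le_mul_of_nonneg_left k3 hβ.le
    rw [hQb]
    linarith
  have hms := mean_small (φ := max (-f (u (t - 1) x)) 0) (M := 3 * Cb) (Qb := Qb) (K := K)
    he hρ (Pool.Agent.H3.RF.gk_meas hKER hPt hlt x) hhm (fun y => by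
      have h1 := (hKER N K V hPt).2.1 (t - 1) t hlt x y
      rw [sub_sub_cancel, mul_one] at h1
      exact ⟨Pool.Agent.H3.RF.gk_nonneg hKER hPt hlt x y, h1.2⟩) hhb hc1 (by
      rw [hc1def, ← hk_ball_shift ρ x, ← integral_const_mul]
      refine integral_mono_ae ?_ ?_ (ae_of_all _ fun y => ?_)
      · exact ((Pool.Agent.H29.TF.integrable_hk_sub one_pos x).const_mul _).restrict
      · have := Pool.Agent.H3.RF.gk_int hKER hPt hlt x (g := fun _ => (1 : ℝ)) (M := 1)
          measurable_const (fun _ => by simp)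
        simp only [mul_one] at this
        exact this.restrict
      · have h1 := (hKER N K V hPt).2.1 (t - 1) t hlt x y
        rw [sub_sub_cancel, mul_one] at h1
        exact h1.1) hp0.le hC10.le (le_max_right _ _) hbv hev (by
      have h1 : ∫ y, G y * h y * ‖y - x‖ ^ 2 = Q * nrm := by
        rw [hQdef]; field_simp
      have h2 : ∫ y, G y * h y * ‖y - x‖ ^ 2 ≤ Qb * nrm := by
        rw [h1]; exact mul_le_mul_of_nonneg_right k4 hnrm0.le
      exact h2)
  have h1 : ∫ y, G y * h y * inner ℝ (y - x) e = m * nrm := by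
    rw [hmdef]; field_simp
  have hms' : |m * nrm| ≤ (nrm / c1 + C1 * p) * (c1 / (8 * β)) + C1 * p * ρ * Real.exp K +
      Qb / ρ * nrm := by
    rw [← h1]; exact hms
  have hpn : p ≤ ηa * nrm := by
    have h2 : ηa * F ≤ ηa * nrm := mul_le_mul_of_nonneg_left (by linarith) hηa0.le
    linarith
  have h3 := final_arith hβ hnrm0 hc1 hC10 hρ heK hpn hηa1 hηa2 (by rw [hρdef]; linarith) hms'
  rw [abs_of_neg k2] at h3
  linarith [sq_nonneg m]

end Pool.Agent.H24.RF.LIA
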