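import Pool.Agent.H91.RD.Basic
import Pool.Agent.H91.RF.TargetsK2

/-!
# MP_609556_an, module P0A: the region ahead contributes exponentially little
-/

open MeasureTheory Set Filter Topology Metric
open Pool.Agent.H29.TF (hk P)
open Pool.Agent.H91.RD Pool.Agent.H91.RF

namespace Pool.Agent.H24.RF

/-- exponentials beat linear functions -/
theorem exp_large (A k : ℝ) (hk : 0 < k) : ∃ T > 0, ∀ t ≥ T, A * (1 + t) ≤ Real.exp (k * t) := by
  refine ⟨max 1 (4 * |A| / k ^ 2), lt_of_lt_of_le one_pos (le_max_left _ _), fun t ht => ?_⟩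
  have h1 : 1 ≤ t := (le_max_left _ _).trans ht
  have h2 : 4 * |A| / k ^ 2 ≤ t := (le_max_right _ _).trans ht
  have hk2 : 0 < k ^ 2 := by positivity
  have h3 : 4 * |A| ≤ t * k ^ 2 := by rwa [div_le_iff₀ hk2] at h2
  have h4 : 1 + k * t + (k * t) ^ 2 / 2 ≤ Real.exp (k * t) :=
    Real.quadratic_le_exp_of_nonneg (by positivity)
  have h5 : A * (1 + t) ≤ |A| * (2 * t) := by
    have h6 : A * (1 + t) ≤ |A| * (1 + t) :=
      mul_le_mul_of_nonneg_right (le_abs_self A) (by linarith)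
    have h7 : |A| * (1 + t) ≤ |A| * (2 * t) :=
      mul_le_mul_of_nonneg_left (by linarith) (abs_nonneg A)
    linarith
  have h8 : |A| * (2 * t) ≤ (k * t) ^ 2 / 2 := by
    have h9 : 4 * |A| * t ≤ t * k ^ 2 * t := mul_le_mul_of_nonneg_right h3 (by linarith)
    nlinarith
  have h10 : 0 ≤ k * t := by positivity
  linarith

/-- small parameters -/
theorem exists_small (c b : ℝ) (hb : 0 < b) : ∃ w0 > 0, ∀ w, 0 < w → w ≤ w0 → c * w ≤ b := by
  refine ⟨b / (|c| + 1), by positivity, fun w hw hw0 => ?_⟩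
  have h1 : 0 < |c| + 1 := by positivity
  rw [le_div_iff₀ h1] at hw0
  have h2 : c * w ≤ |c| * w := mul_le_mul_of_nonneg_right (le_abs_self c) hw.le
  nlinarith

theorem NDir.mono {N : ℕ} {U : Set (E N)} {η η' : ℝ} {x e : E N} (h : NDir U η x e)
    (hη : η ≤ η') : NDir U η' x e := by
  obtain ⟨h1, ξ, e0, h2, h3⟩ := h
  exact ⟨h1, ξ, e0, h2, h3.trans hη⟩

theorem dx_neg {N : ℕ} (u : ℝ → E N → ℝ) (e : E N) (t : ℝ) (x : E N) :
    dx u (-e) t x = -dx u e t x := by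
  unfold dx; rw [map_neg]

theorem abs_dx_le {N : ℕ} (u : ℝ → E N → ℝ) (e : E N) (he : ‖e‖ = 1) (t : ℝ) (x : E N) :
    |dx u e t x| ≤ gr u t x := by
  unfold dx gr
  have := (fderiv ℝ (u t) x).le_opNorm e
  rwa [he, mul_one, Real.norm_eq_abs] at this

/-- the potential in the box, away from the interface -/
theorem pot_box {N : ℕ} {f : ℝ → ℝ} {K cc lo hi : ℝ} {U : Set (E N)} {u : ℝ → E N → ℝ}
    (hS : Stg f K U u) (hM : Mac U u cc lo hi) (hlo : 4 * fp f lo ≤ cc ^ 2) (hhi : fp f hi ≤ 0)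
    (hc : ContinuousOn (fp f) (Icc 0 1)) :
    ∃ η > 0, ∀ ω > 0, ∀ ω' > 0, ∃ T > 0, ∀ t ≥ T, ∀ x, |infDist x U - cc * t| ≤ η * t →
      ω' * t ≤ |infDist x U - cc * t| → pot f u t x ≤ cc ^ 2 / 4 + ω := by
  obtain ⟨ηl, hηl, hlow⟩ := hM.low
  obtain ⟨ηh, hηh, hhigh⟩ := hM.high
  refine ⟨min ηl ηh, lt_min hηl hηh, fun ω hω ω' hω' => ?_⟩
  have hlo1 : lo ∈ Icc (0 : ℝ) 1 := ⟨hM.lo0, hM.lohi.le.trans hM.hi1⟩
  have hhi1 : hi ∈ Icc (0 : ℝ) 1 := ⟨hM.lo0.trans hM.lohi.le, hM.hi1⟩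
  have key : ∀ z ∈ Icc (0 : ℝ) 1, ∃ δ > 0, ∀ v ∈ Icc (0 : ℝ) 1, |v - z| < δ →
      fp f v ≤ fp f z + ω := by
    intro z hz
    obtain ⟨δ, hδ, h⟩ := Metric.continuousWithinAt_iff.1 (hc z hz) ω hω
    refine ⟨δ, hδ, fun v hv hvz => ?_⟩
    have := h hv (by rwa [Real.dist_eq])
    rw [Real.dist_eq, abs_lt] at this
    linarith [this.2]
  obtain ⟨δ1, hδ1, hl⟩ := key lo hlo1
  obtain ⟨δ2, hδ2, hh⟩ := key hi hhi1
  obtain ⟨Ta, hTa, ha⟩ := hM.ahead (min ω' (δ1 / 2)) (lt_min hω' (by positivity))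
  obtain ⟨Tb, hTb, hb⟩ := hM.behind (min ω' (δ2 / 2)) (lt_min hω' (by positivity))
  obtain ⟨Tl, hTl, hl'⟩ := hlow (δ1 / 2) (by positivity)
  obtain ⟨Th, hTh, hh'⟩ := hhigh (δ2 / 2) (by positivity)
  refine ⟨max (max Ta Tb) (max Tl Th), lt_of_lt_of_le hTa ((le_max_left _ _).trans
    (le_max_left _ _)), fun t ht x h1 h2 => ?_⟩
  have hta : Ta ≤ t := ((le_max_left _ _).trans (le_max_left _ _)).trans ht
  have htb : Tb ≤ t := ((le_max_right _ _).trans (le_max_left _ _)).trans ht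
  have htl : Tl ≤ t := ((le_max_left _ _).trans (le_max_right _ _)).trans ht
  have hth : Th ≤ t := ((le_max_right _ _).trans (le_max_right _ _)).trans ht
  have ht0 : 0 < t := lt_of_lt_of_le hTa hta
  have hu : u t x ∈ Icc (0 : ℝ) 1 := ⟨hS.sol.nonneg ht0 x, hS.sol.le_one ht0 x⟩
  unfold pot
  rw [if_pos ht0]
  have hml : min ηl ηh * t ≤ ηl * t := mul_le_mul_of_nonneg_right (min_le_left _ _) ht0.le
  have hmh : min ηl ηh * t ≤ ηh * t := mul_le_mul_of_nonneg_right (min_le_right _ _) ht0.le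
  have hw1 : min ω' (δ1 / 2) * t ≤ ω' * t := mul_le_mul_of_nonneg_right (min_le_left _ _) ht0.le
  have hw2 : min ω' (δ2 / 2) * t ≤ ω' * t := mul_le_mul_of_nonneg_right (min_le_left _ _) ht0.le
  rcases le_total 0 (infDist x U - cc * t) with h3 | h3
  · rw [abs_of_nonneg h3] at h1 h2
    have h4 := ha t hta x (by linarith)
    have h5 := hl' t htl x (by linarith)
    have h6 := hl (u t x) hu (by
      have := min_le_right ω' (δ1 / 2)
      rw [abs_lt]; constructor <;> linarith)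
    linarith
  · rw [abs_of_nonpos h3] at h1 h2
    have h4 := hb t htb x (by linarith)
    have h5 := hh' t hth x (by linarith)
    have h6 := hh (u t x) hu (by
      have := min_le_right ω' (δ2 / 2)
      rw [abs_lt]; constructor <;> linarith)
    have : 0 ≤ cc ^ 2 := sq_nonneg _
    linarith

theorem small_split {c w b : ℝ} (hc : 0 < c) (hw : 0 < w) (h : (1 + c) * w ≤ b) :
    w ≤ b ∧ c * w ≤ b := by
  have h1 : (1 + c) * w = w + c * w := by ring
  have h2 : 0 < c * w := mul_pos hc hw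
  constructor <;> linarith

/-- the arithmetic of the exponents -/
theorem P0A_arith1 {cc γ a ω' ε' Cg L t K X4 : ℝ} (hγ0 : 0 ≤ γ) (hγ : γ ≤ cc / 2)
    (ha : 0 < a) (hCg : 0 ≤ Cg) (ht : 0 < t) (hω' : 0 < ω') (hε' : 0 < ε')
    (hω'2 : cc * ω' ≤ a ^ 6 / 800) (hε'2 : cc * ε' ≤ a ^ 6 / 800)
    (hCgL : cc / 2 * Cg * L ^ 2 * a ^ 2 ≤ 1 / 100) (hX : X4 ≤ a ^ 4 * t)
    (hK : K ≤ Real.exp (a ^ 6 / 100 * t)) (χ τ : ℝ)
    (hχ : cc * τ - ω' * t ≤ χ + (Cg * (L * a ^ 4) ^ 2 + ε') * t) :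
    K * Real.exp (-(γ * (χ - cc * τ)) + ((a / 2) ^ 2 + a ^ 2 / 800) * X4 +
      (-(a ^ 6 / 2) + (a ^ 6 / 800 + cc / 2 * ε')) * t) ≤ Real.exp (-(a ^ 6 / 5) * t) := by
  have h1 : K * Real.exp (-(γ * (χ - cc * τ)) + ((a / 2) ^ 2 + a ^ 2 / 800) * X4 +
      (-(a ^ 6 / 2) + (a ^ 6 / 800 + cc / 2 * ε')) * t) ≤ Real.exp (a ^ 6 / 100 * t) *
      Real.exp (-(γ * (χ - cc * τ)) + ((a / 2) ^ 2 + a ^ 2 / 800) * X4 +
      (-(a ^ 6 / 2) + (a ^ 6 / 800 + cc / 2 * ε')) * t) :=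
    mul_le_mul_of_nonneg_right hK (Real.exp_pos _).le
  refine h1.trans ?_
  rw [← Real.exp_add]
  apply Real.exp_le_exp.2
  have h2 : γ * (cc * τ - χ) ≤ γ * (ω' * t + (Cg * (L * a ^ 4) ^ 2 + ε') * t) :=
    mul_le_mul_of_nonneg_left (by linarith) hγ0
  have h3 : γ * (ω' * t + (Cg * (L * a ^ 4) ^ 2 + ε') * t) ≤
      cc / 2 * (ω' * t + (Cg * (L * a ^ 4) ^ 2 + ε') * t) :=
    mul_le_mul_of_nonneg_right hγ (by positivity)
  have h4 : cc / 2 * (ω' * t + (Cg * (L * a ^ 4) ^ 2 + ε') * t) =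
      (cc * ω') * (t / 2) + (cc * ε') * (t / 2) +
      (cc / 2 * Cg * L ^ 2 * a ^ 2) * (a ^ 6 * t) := by ring
  have h5 : (cc * ω') * (t / 2) ≤ a ^ 6 / 800 * (t / 2) :=
    mul_le_mul_of_nonneg_right hω'2 (by positivity)
  have h6 : (cc * ε') * (t / 2) ≤ a ^ 6 / 800 * (t / 2) :=
    mul_le_mul_of_nonneg_right hε'2 (by positivity)
  have h7 : (cc / 2 * Cg * L ^ 2 * a ^ 2) * (a ^ 6 * t) ≤ 1 / 100 * (a ^ 6 * t) :=
    mul_le_mul_of_nonneg_right hCgL (by positivity)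
  have h8 : ((a / 2) ^ 2 + a ^ 2 / 800) * X4 ≤ ((a / 2) ^ 2 + a ^ 2 / 800) * (a ^ 4 * t) :=
    mul_le_mul_of_nonneg_left hX (by positivity)
  have h9 : ((a / 2) ^ 2 + a ^ 2 / 800) * (a ^ 4 * t) = a ^ 6 * t * (1 / 4 + 1 / 800) := by ring
  have h10 : 0 < a ^ 6 * t := by positivity
  have h11 : γ * (χ - cc * τ) = -(γ * (cc * τ - χ)) := by ring
  rw [h11]
  nlinarith

theorem P0A_arith2 {cc γ a ε' t K η d0 s Mp p L : ℝ} {N : ℕ} (hγ0 : 0 ≤ γ) (hγ : γ ≤ cc / 2)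
    (ha : 0 < a) (ha1 : a ≤ 1) (ht : 0 < t) (hη0 : 0 ≤ η) (hd0 : |d0 - cc * t| ≤ η * t)
    (hs0 : 0 < s) (hs1 : s ≤ a ^ 4 * t) (hηcc : cc * η ≤ a ^ 6 / 800)
    (hε'2 : cc * ε' ≤ a ^ 6 / 800) (hK : 0 ≤ K) (hN : 1 ≤ √(N : ℝ))
    (hL : L = 2 * √N * (K + 4) + 2) (hMp : 0 ≤ Mp) (hp : p ≤ Mp)
    (e6 : 3 * Mp * (1 + t) ≤ Real.exp (a ^ 6 / 24 * t))
    (e7 : 3 * N * (1 + t) ≤ Real.exp (a ^ 4 * t)) (e8 : 3 * (1 + t) ≤ Real.exp (a ^ 6 / 10 * t)) :
    Real.exp (-(γ * (d0 - cc * t)) + ((a / 2) ^ 2 + a ^ 2 / 800) * s +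
        (-(a ^ 6 / 2) + (a ^ 6 / 800 + cc / 2 * ε')) * t) +
      Real.exp (-(a ^ 6 / 6) * t) * s * p +
      N * 1 * Real.exp ((K + 1) * s - L * a ^ 4 * t / (2 * √N)) ≤ Real.exp (-(a ^ 6 * t / 8)) := by
  have hX : 0 < a ^ 6 * t := by positivity
  have hX4 : 0 < a ^ 4 * t := by positivity
  have h46 : a ^ 6 * t ≤ a ^ 4 * t :=
    mul_le_mul_of_nonneg_right (pow_le_pow_of_le_one ha.le ha1 (by norm_num)) ht.le
  have h4t : a ^ 4 * t ≤ t := mul_le_of_le_one_left ht.le (pow_le_one₀ ha.le ha1)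
  -- first term
  have t1 : 3 * Real.exp (-(γ * (d0 - cc * t)) + ((a / 2) ^ 2 + a ^ 2 / 800) * s +
        (-(a ^ 6 / 2) + (a ^ 6 / 800 + cc / 2 * ε')) * t) ≤ Real.exp (-(a ^ 6 * t / 8)) := by
    have h1 : (3 : ℝ) ≤ Real.exp (a ^ 6 / 10 * t) := by linarith
    refine (mul_le_mul_of_nonneg_right h1 (Real.exp_pos _).le).trans ?_
    rw [← Real.exp_add]
    apply Real.exp_le_exp.2
    have h2 : -(γ * (d0 - cc * t)) ≤ cc / 2 * (η * t) := by
      have h3 : -(γ * (d0 - cc * t)) ≤ γ * |d0 - cc * t| := by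
        have := mul_le_mul_of_nonneg_left (neg_abs_le (d0 - cc * t)) hγ0
        linarith
      have h4 : γ * |d0 - cc * t| ≤ γ * (η * t) := mul_le_mul_of_nonneg_left hd0 hγ0
      have h5 : γ * (η * t) ≤ cc / 2 * (η * t) := mul_le_mul_of_nonneg_right hγ (by positivity)
      linarith
    have h3 : (cc * η) * (t / 2) ≤ a ^ 6 / 800 * (t / 2) :=
      mul_le_mul_of_nonneg_right hηcc (by positivity)
    have h4 : (cc * ε') * (t / 2) ≤ a ^ 6 / 800 * (t / 2) :=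
      mul_le_mul_of_nonneg_right hε'2 (by positivity)
    have h8 : ((a / 2) ^ 2 + a ^ 2 / 800) * s ≤ ((a / 2) ^ 2 + a ^ 2 / 800) * (a ^ 4 * t) :=
      mul_le_mul_of_nonneg_left hs1 (by positivity)
    have h9 : ((a / 2) ^ 2 + a ^ 2 / 800) * (a ^ 4 * t) = a ^ 6 * t * (1 / 4 + 1 / 800) := by ring
    linarith
  -- second term
  have t2 : 3 * (Real.exp (-(a ^ 6 / 6) * t) * s * p) ≤ Real.exp (-(a ^ 6 * t / 8)) := by
    have h1 : s * p ≤ t * Mp := by
      have h2 : s * p ≤ s * Mp := mul_le_mul_of_nonneg_left hp hs0.le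
      have h3 : s * Mp ≤ t * Mp := mul_le_mul_of_nonneg_right (hs1.trans h4t) hMp
      linarith
    have h2 : 3 * (s * p) ≤ Real.exp (a ^ 6 / 24 * t) := by linarith
    have h3 : 3 * (Real.exp (-(a ^ 6 / 6) * t) * s * p) =
      Real.exp (-(a ^ 6 / 6) * t) * (3 * (s * p)) := by ring
    rw [h3]
    refine (mul_le_mul_of_nonneg_left h2 (Real.exp_pos _).le).trans ?_
    rw [← Real.exp_add]
    apply Real.exp_le_exp.2
    linarith
  -- third term
  have t3 : 3 * (N * 1 * Real.exp ((K + 1) * s - L * a ^ 4 * t / (2 * √N))) ≤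
      Real.exp (-(a ^ 6 * t / 8)) := by
    have h1 : 3 * (N : ℝ) ≤ Real.exp (a ^ 4 * t) := by
      have h2 : 0 ≤ (N : ℝ) * t := by positivity
      linarith
    have h3 : 3 * ((N : ℝ) * 1 * Real.exp ((K + 1) * s - L * a ^ 4 * t / (2 * √N))) =
      3 * (N : ℝ) * Real.exp ((K + 1) * s - L * a ^ 4 * t / (2 * √N)) := by ring
    rw [h3]
    refine (mul_le_mul_of_nonneg_right h1 (Real.exp_pos _).le).trans ?_
    rw [← Real.exp_add]
    apply Real.exp_le_exp.2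
    have h4 : (K + 4) * (a ^ 4 * t) ≤ L * a ^ 4 * t / (2 * √N) := by
      rw [le_div_iff₀ (by linarith), hL]
      have h5 : (2 * √(N : ℝ) * (K + 4) + 2) * a ^ 4 * t =
        (K + 4) * (a ^ 4 * t) * (2 * √(N : ℝ)) + 2 * (a ^ 4 * t) := by ring
      linarith
    have h6 : (K + 1) * s ≤ (K + 1) * (a ^ 4 * t) := mul_le_mul_of_nonneg_left hs1 (by linarith)
    linarith
  linarith

theorem P0A_arith3 {a t K s Mb Mp L : ℝ} {N : ℕ} (hK : 0 ≤ K) (ht : 0 < t) (hs0 : 0 < s)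
    (hs1 : s ≤ a ^ 4 * t) (hMb : 1 ≤ Mb) (hMp : 0 ≤ Mp) (ha : 0 < a) (ha1 : a ≤ 1)
    (hN : 1 ≤ √(N : ℝ)) (hL : L = 2 * √N * (K + 4) + 2)
    (e4 : 2 * (Mb + Mp) * (1 + t) ≤ Real.exp (a ^ 4 * t)) :
    2 * (Mb * Real.exp (K * s) + Real.exp (-(a ^ 6 / 6) * t) * s * Mp) ≤
      Real.exp (L * a ^ 4 * t / (2 * √N)) := by
  have hX4 : 0 < a ^ 4 * t := by positivity
  have h4t : a ^ 4 * t ≤ t := mul_le_of_le_one_left ht.le (pow_le_one₀ ha.le ha1)
  have h1 : Real.exp (-(a ^ 6 / 6) * t) ≤ 1 := by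
    rw [Real.exp_le_one_iff]
    have : 0 < a ^ 6 * t := by positivity
    linarith
  have h2 : (1 : ℝ) ≤ Real.exp (K * s) := Real.one_le_exp (by positivity)
  have h3 : Real.exp (-(a ^ 6 / 6) * t) * s * Mp ≤ Real.exp (K * s) * (t * Mp) := by
    have h4 : Real.exp (-(a ^ 6 / 6) * t) * (s * Mp) ≤ 1 * (s * Mp) :=
      mul_le_mul_of_nonneg_right h1 (by positivity)
    have h5 : s * Mp ≤ t * Mp := mul_le_mul_of_nonneg_right (hs1.trans h4t) hMp
    have h6 : 1 * (t * Mp) ≤ Real.exp (K * s) * (t * Mp) :=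
      mul_le_mul_of_nonneg_right h2 (by positivity)
    linarith
  have h4 : 2 * (Mb * Real.exp (K * s) + Real.exp (-(a ^ 6 / 6) * t) * s * Mp) ≤
      Real.exp (K * s) * (2 * (Mb + Mp) * (1 + t)) := by
    have h5 : 0 ≤ Real.exp (K * s) * (Mb * t + Mp) := by positivity
    linarith
  refine h4.trans ((mul_le_mul_of_nonneg_left e4 (Real.exp_pos _).le).trans ?_)
  rw [← Real.exp_add]
  apply Real.exp_le_exp.2
  have h5 : (K + 4) * (a ^ 4 * t) ≤ L * a ^ 4 * t / (2 * √N) := by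
    rw [le_div_iff₀ (by linarith), hL]
    have h6 : (2 * √(N : ℝ) * (K + 4) + 2) * a ^ 4 * t =
      (K + 4) * (a ^ 4 * t) * (2 * √(N : ℝ)) + 2 * (a ^ 4 * t) := by ring
    linarith
  have h6 : K * s ≤ K * (a ^ 4 * t) := mul_le_mul_of_nonneg_left hs1 hK
  linarith

/-- [P0A] the region ahead contributes exponentially little -/
theorem P0A (hP0B : T_P0B) (hGEOB : T_GEOB) (hUPB : T_UPB) (hLINU : T_LINU) (hFPC : T_FPC) :
    T_P0A := by
  intro N f K cc lo hi C0 C9 η0 U u hS hM hF hlo hhi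
  have hcc := hM.cpos
  have hN := hS.N1
  have hC9 := hF.hC9
  obtain ⟨hPt, hVc, hLin, Mp0, hMp0⟩ := hLINU N f K U u hS.reac hS.lip hS.sol
  obtain ⟨-, hfpc, -, -⟩ := hFPC f K hS.reac hS.lip
  have hK := hPt.K0
  obtain ⟨ρU, hρU, TU, hTU, hbox⟩ := hUPB N U cc
    (fun _ t x e => NDir U η0 x e ∧ |infDist x U - cc * t| ≤ η0 * t) hS.condC hS.ne hcc
    (fun ε _ => ⟨η0, hF.hη0, 1, one_pos, fun t _ x e h1 h2 => ⟨h1, h2⟩⟩) 1 one_pos
  obtain ⟨Cg, hCg, ρ0, hρ0, hgeo⟩ := hGEOB N U (cc / 2) (2 * cc) hS.condC hS.ne (by linarith)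
    (by linarith)
  obtain ⟨ηm, hηm, hpot⟩ := pot_box hS hM hlo hhi hfpc
  obtain ⟨Tp, hTp, hpos⟩ := hF.pos
  have hsqN : 1 ≤ √(N : ℝ) := by
    rw [Real.one_le_sqrt]; exact_mod_cast hN
  set L : ℝ := 2 * √N * (K + 4) + 2 with hL
  have hL1 : 1 ≤ L := by
    have : 0 ≤ 2 * √(N : ℝ) * (K + 4) := by positivity
    linarith
  have hL0 : 0 < L := by linarith
  -- the bound for `a`
  obtain ⟨a1, ha1, h1⟩ := exists_small L (min ρU ρ0) (lt_min hρU hρ0)
  obtain ⟨a2, ha2, h2⟩ := exists_small (cc / 2 * Cg * L ^ 2) (1 / 100) (by norm_num)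
  obtain ⟨a3, ha3, h3⟩ := exists_small (L + cc) (ηm / 8) (by positivity)
  refine ⟨min (min (1 / 2) cc) (min a1 (min a2 a3)), by positivity, L, hL1,
    fun a ha haa Mb hMb => ?_⟩
  have haH : a ≤ 1 / 2 := haa.trans ((min_le_left _ _).trans (min_le_left _ _))
  have hacc : a ≤ cc := haa.trans ((min_le_left _ _).trans (min_le_right _ _))
  have haa1 : a ≤ a1 := haa.trans ((min_le_right _ _).trans (min_le_left _ _))
  have haa2 : a ≤ a2 := haa.trans ((min_le_right _ _).trans ((min_le_right _ _).trans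
    (min_le_left _ _)))
  have haa3 : a ≤ a3 := haa.trans ((min_le_right _ _).trans ((min_le_right _ _).trans
    (min_le_right _ _)))
  have hpow2 : a ^ 2 ≤ a := pow_le_of_le_one ha.le (by linarith) (by norm_num)
  have hpow4 : a ^ 4 ≤ a := pow_le_of_le_one ha.le (by linarith) (by norm_num)
  have hpow4' : a ^ 4 ≤ 1 / 16 := by
    have h : a ^ 4 ≤ (1 / 2) ^ 4 := pow_le_pow_left₀ ha.le haH 4
    norm_num at h ⊢; linarith
  have ha4 : 0 < a ^ 4 := by positivity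
  have ha6 : 0 < a ^ 6 := by positivity
  have hLρ : L * a ^ 4 ≤ min ρU ρ0 := (mul_le_mul_of_nonneg_left hpow4 hL0.le).trans
    (h1 a ha haa1)
  have hLa : 0 < L * a ^ 4 := by positivity
  have hCgL : cc / 2 * Cg * L ^ 2 * a ^ 2 ≤ 1 / 100 :=
    (mul_le_mul_of_nonneg_left hpow2 (by positivity)).trans (h2 a ha haa2)
  have hLm : (L + cc) * a ^ 4 ≤ ηm / 8 :=
    (mul_le_mul_of_nonneg_left hpow4 (by positivity)).trans (h3 a ha haa3)
  -- small parameters depending on `a`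
  obtain ⟨w1, hw1, k1⟩ := exists_small C9 (a ^ 6 / 800) (by positivity)
  obtain ⟨w2, hw2, k2⟩ := exists_small (1 + cc) (a ^ 6 / 800) (by positivity)
  obtain ⟨ε', hε', hε'1, hε'2⟩ : ∃ ε' > 0, ε' ≤ a ^ 6 / 800 ∧ cc * ε' ≤ a ^ 6 / 800 :=
    ⟨w2, hw2, small_split hcc hw2 (k2 w2 hw2 le_rfl)⟩
  obtain ⟨ω', hω', hω'1, hω'2⟩ : ∃ w > 0, C9 * w ≤ a ^ 6 / 800 ∧ cc * w ≤ a ^ 6 / 800 :=
    ⟨min w1 w2, lt_min hw1 hw2, k1 _ (lt_min hw1 hw2) (min_le_left _ _),
      (small_split hcc (lt_min hw1 hw2) (k2 _ (lt_min hw1 hw2) (min_le_right _ _))).2⟩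
  obtain ⟨η1, hη1, T1, hT1, hg1⟩ := hgeo (L * a ^ 4) hLa (hLρ.trans (min_le_right _ _)) ε' hε'
  obtain ⟨T2, hT2, hpot2⟩ := hpot (a ^ 2 / 800) (by positivity) ω' hω'
  obtain ⟨T3, hT3, hlow3⟩ := hF.low ε' hε'
  set Mp : ℝ := max Mp0 0 with hMp
  have hMp0' : 0 ≤ Mp := le_max_right _ _
  obtain ⟨T4, hT4, hx4⟩ := exp_large (2 * (Mb + Mp)) (a ^ 4) ha4
  obtain ⟨T5, hT5, hx5⟩ := exp_large K (a ^ 6 / 100) (by positivity)
  obtain ⟨T6, hT6, hx6⟩ := exp_large (3 * Mp) (a ^ 6 / 24) (by positivity)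
  obtain ⟨T7, hT7, hx7⟩ := exp_large (3 * N) (a ^ 4) ha4
  obtain ⟨T8, hT8, hx8⟩ := exp_large 3 (a ^ 6 / 10) (by positivity)
  refine ⟨min (min η1 ρU) (min (min (ηm / 8) (cc / 2)) w2), by positivity, a ^ 6 / 800,
    by positivity, 2 + TU + 2 * Tp + T1 + 2 * T2 + 2 * T3 + T4 + T5 + T6 + T7 + T8,
    by positivity, fun t ht x0 e hnd hd0 s hs g hgm hg0 hg => ?_⟩
  have ht2 : 2 ≤ t := by linarith
  have htU : TU ≤ t := by linarith
  have htp : 2 * Tp ≤ t := by linarith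
  have ht1' : T1 ≤ t := by linarith
  have ht2' : 2 * T2 ≤ t := by linarith
  have ht3' : 2 * T3 ≤ t := by linarith
  have e4 := hx4 t (by linarith)
  have e5 := hx5 t (by linarith)
  have e6 := hx6 t (by linarith)
  have e7 := hx7 t (by linarith)
  have e8 := hx8 t (by linarith)
  clear ht hx4 hx5 hx6 hx7 hx8 hT4 hT5 hT6 hT7 hT8 hTU hT1
  set η : ℝ := min (min η1 ρU) (min (min (ηm / 8) (cc / 2)) w2) with hη
  have hηa : η ≤ η1 := (min_le_left _ _).trans (min_le_left _ _)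
  have hηb : η ≤ ρU := (min_le_left _ _).trans (min_le_right _ _)
  have hηc : η ≤ ηm / 8 := (min_le_right _ _).trans ((min_le_left _ _).trans (min_le_left _ _))
  have hηd : η ≤ cc / 2 := (min_le_right _ _).trans ((min_le_left _ _).trans (min_le_right _ _))
  have hηe : η ≤ w2 := (min_le_right _ _).trans (min_le_right _ _)
  have hη0 : 0 < η := by rw [hη]; positivity
  have hηcc : cc * η ≤ a ^ 6 / 800 := (small_split hcc hη0 (k2 η hη0 hηe)).2
  clear_value η Mp L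
  have ht0 : 0 < t := by linarith
  have hs0 : 0 < s := lt_of_lt_of_le (by positivity) hs.1
  have hs1 : s ≤ a ^ 4 * t := hs.2
  have hs2 : s ≤ t / 16 := by
    have := mul_le_mul_of_nonneg_right hpow4' ht0.le
    linarith
  set d0 : ℝ := infDist x0 U with hd0def
  have hd0' : |d0 - cc * t| ≤ cc / 2 * t := hd0.trans (mul_le_mul_of_nonneg_right hηd ht0.le)
  have hdl : cc / 2 * t ≤ d0 := by rw [abs_le] at hd0'; linarith [hd0'.1]
  have hdu : d0 ≤ 2 * cc * t := by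
    rw [abs_le] at hd0'; have := hd0'.2; linarith [mul_pos hcc ht0]
  have he1 : ‖e‖ = 1 := hnd.1
  have hgeo1 := hg1 t ht1' x0 e (NDir.mono hnd hηa) hdl hdu
  have hbox1 := hbox t htU x0 e (NDir.mono hnd hηb)
    (hd0.trans (mul_le_mul_of_nonneg_right hηb ht0.le))
  clear hg1 hbox
  -- points of the box
  have hboxt : ∀ τ ∈ Icc (t - s) t, ∀ x ∈ closedBall x0 (L * a ^ 4 * t),
      t / 2 ≤ τ ∧ NDir U η0 x e ∧ |infDist x U - cc * τ| ≤ η0 * τ ∧
        |infDist x U - cc * τ| ≤ ηm * τ := by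
    intro τ hτ x hx
    have hx' : dist x x0 ≤ L * a ^ 4 * t := hx
    have hτ2 : t / 2 ≤ τ := by linarith [hτ.1]
    have h4 : s ≤ ρU * t := hs1.trans (mul_le_mul_of_nonneg_right
      ((le_mul_of_one_le_left ha4.le hL1).trans (hLρ.trans (min_le_left _ _))) ht0.le)
    have h5 := hbox1 τ ⟨by linarith [hτ.1], hτ.2⟩ x
      (hx'.trans (mul_le_mul_of_nonneg_right (hLρ.trans (min_le_left _ _)) ht0.le))
    refine ⟨hτ2, h5.1, h5.2, ?_⟩
    have h6 : |infDist x U - d0| ≤ dist x x0 := by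
      rw [abs_le]
      have h7 := infDist_le_infDist_add_dist (s := U) (x := x) (y := x0)
      have h8 := infDist_le_infDist_add_dist (s := U) (x := x0) (y := x)
      rw [dist_comm x0 x] at h8
      constructor <;> linarith
    have h7 : |infDist x U - cc * τ| ≤ |infDist x U - d0| + |d0 - cc * t| + |cc * t - cc * τ| := by
      have := abs_add_three (infDist x U - d0) (d0 - cc * t) (cc * t - cc * τ)
      have h8 : infDist x U - cc * τ = infDist x U - d0 + (d0 - cc * t) + (cc * t - cc * τ) := by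
        ring
      rw [h8]; exact this
    have h8 : |cc * t - cc * τ| ≤ cc * a ^ 4 * t := by
      rw [abs_of_nonneg (by linarith [mul_le_mul_of_nonneg_left hτ.2 hcc.le])]
      have : cc * (t - τ) ≤ cc * (a ^ 4 * t) :=
        mul_le_mul_of_nonneg_left (by linarith [hτ.1]) hcc.le
      linarith
    have h9 : η * t ≤ ηm / 8 * t := mul_le_mul_of_nonneg_right hηc ht0.le
    have h10 : (L + cc) * a ^ 4 * t ≤ ηm / 8 * t := mul_le_mul_of_nonneg_right hLm ht0.le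
    have h11 : ηm * (t / 2) ≤ ηm * τ := mul_le_mul_of_nonneg_left hτ2 hηm.le
    have h12 : 0 < ηm * t := by positivity
    have h13 : (L + cc) * a ^ 4 * t = L * a ^ 4 * t + cc * a ^ 4 * t := by ring
    linarith
  -- the barrier
  have hts : t / 2 ≤ t - s := by linarith
  have hts0 : 0 < t - s := by linarith
  have hneg : ∀ τ x, dx u (-e) τ x = -dx u e τ x := fun τ x => dx_neg u e τ x
  have hpc : ContinuousOn (fun q : ℝ × E N => dx u (-e) q.1 q.2) (Icc (t - s) t ×ˢ univ) := by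
    refine ((hLin ((t - s) / 2) t (by linarith) (by linarith)).1 (-e)).cont.mono ?_
    exact prod_mono (fun r hr => ⟨by linarith [hr.1], hr.2⟩) (subset_refl _)
  have hVc' : ContinuousOn (fun q : ℝ × E N => pot f u q.1 q.2) (Icc (t - s) t ×ˢ univ) :=
    hVc.mono (prod_mono (fun r hr => lt_of_lt_of_le hts0 hr.1) (subset_refl _))
  have hpM : ∀ τ ∈ Icc (t - s) t, ∀ x, |dx u (-e) τ x| ≤ Mp := by
    intro τ hτ x
    have h4 := (hMp0 τ (by linarith [hτ.1]) x).1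
    have h5 := abs_dx_le u (-e) (by rw [norm_neg]; exact he1) τ x
    exact (h5.trans h4).trans (by rw [hMp]; exact le_max_left _ _)
  set χ : E N → ℝ := fun y => d0 + inner ℝ (y - x0) e with hχ
  have hχm : Measurable χ := by rw [hχ]; fun_prop
  have hAm : MeasurableSet {y | cc * (t - s) + a ^ 5 * t ≤ χ y} := measurableSet_le
    measurable_const hχm
  have hγ0 : 0 ≤ cc / 2 - a / 2 := by linarith
  have hγ1 : cc / 2 - a / 2 ≤ cc / 2 := by linarith
  have e5' : K ≤ Real.exp (a ^ 6 / 100 * t) := by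
    refine le_trans ?_ e5
    have : 0 ≤ K * t := by positivity
    linarith
  have hmain := hP0B N K cc (cc / 2 - a / 2) (a / 2) (a ^ 2 / 800)
    ((-(a ^ 6 / 2) + (a ^ 6 / 800 + cc / 2 * ε')) * t) (Real.exp (-(a ^ 6 / 6) * t)) Mb Mp 1
    (L * a ^ 4 * t) d0 (t - s) t (pot f u) (dx u (-e))
    ({y | cc * (t - s) + a ^ 5 * t ≤ χ y}.indicator g) x0 e hN hPt hVc'
    ((hLin (t - s) t hts0 (by linarith)).1 (-e)) hpc (by linarith) he1 (by linarith) rfl hγ0
    (by positivity) (Real.exp_pos _).le (by linarith) (by positivity) zero_le_one hpM ?_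
    (hgm.indicator hAm) ?_ ?_ ?_
  · -- conclusion
    refine hmain.trans ?_
    rw [hneg, sub_sub_cancel]
    have hX : 0 < a ^ 6 * t := by positivity
    have hpx : -dx u e t x0 ≤ Mp := by
      have h4 := hpM t ⟨by linarith, le_rfl⟩ x0
      rw [hneg, abs_le] at h4
      exact h4.2
    exact P0A_arith2 hγ0 hγ1 ha (by linarith) ht0 hη0.le hd0 hs0 hs1 hηcc hε'2 hK.le
      hsqN hL hMp0' hpx e6 e7 e8
  · -- condition in the ball
    intro τ hτ x hx
    obtain ⟨hτ2, hnd', hη', hηm'⟩ := hboxt τ hτ x hx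
    have hτ0 : 0 < τ := by linarith
    have hpp := (hpos τ (by linarith) x e hnd' hη').1
    rw [hneg]
    refine ⟨hpp.le, ?_⟩
    rcases le_total (ω' * τ) |infDist x U - cc * τ| with h4 | h4
    · exact Or.inl (hpot2 τ (by linarith) x hηm' h4)
    · right
      have h5 := hlow3 τ (by linarith) x e hnd' hη'
      have h6 : Real.exp (-(a ^ 6 / 5) * t) ≤ Real.exp (-(a ^ 6 / 6) * t) * -dx u e τ x := by
        refine le_trans ?_ (mul_le_mul_of_nonneg_left h5 (Real.exp_pos _).le)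
        rw [← Real.exp_add]
        apply Real.exp_le_exp.2
        have h7 : C9 * |infDist x U - cc * τ| ≤ C9 * (ω' * τ) :=
          mul_le_mul_of_nonneg_left h4 (by linarith)
        have h8 : C9 * ω' * τ ≤ a ^ 6 / 800 * τ := mul_le_mul_of_nonneg_right hω'1 hτ0.le
        have h9 : ε' * τ ≤ a ^ 6 / 800 * τ := mul_le_mul_of_nonneg_right hε'1 hτ0.le
        have h10 : a ^ 6 / 800 * τ ≤ a ^ 6 / 800 * t :=
          mul_le_mul_of_nonneg_left hτ.2 (by positivity)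
        have h11 : 0 < a ^ 6 * t := by positivity
        linarith
      refine le_trans ?_ h6
      have hx' : dist x x0 ≤ L * a ^ 4 * t := hx
      have h12 := (hgeo1 x hx').2
      have h13 : ω' * τ ≤ ω' * t := mul_le_mul_of_nonneg_left hτ.2 hω'.le
      exact P0A_arith1 hγ0 hγ1 ha (by linarith) ht0 hω' hε' hω'2 hε'2 hCgL
        (by linarith [hτ.2]) e5' (χ x) τ (by
          have h14 : χ x = d0 + inner ℝ (x - x0) e := rfl
          rw [abs_le] at h4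
          linarith [h4.1])
  · -- bounds
    intro y
    refine ⟨indicator_nonneg (fun z _ => (hg0 z).1) y, ?_⟩
    exact (indicator_le_self' (fun z _ => (hg0 z).1) y).trans (hg0 y).2
  · -- initial condition
    intro y hy
    by_cases hyA : y ∈ {y | cc * (t - s) + a ^ 5 * t ≤ χ y}
    · rw [indicator_of_mem hyA]
      have hyA' : cc * (t - s) + a ^ 5 * t ≤ χ y := hyA
      have hy' : dist y x0 ≤ L * a ^ 4 * t := hy
      have h4 := (hgeo1 y hy').1
      have h5 : ε' * t ≤ a ^ 5 * t := by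
        refine mul_le_mul_of_nonneg_right (hε'1.trans ?_) ht0.le
        have : a ^ 6 = a ^ 5 * a := by ring
        have h6 : a ^ 5 * a ≤ a ^ 5 * 1 := mul_le_mul_of_nonneg_left (by linarith) (by positivity)
        have h7 : 0 < a ^ 5 := by positivity
        linarith
      have h6 : cc * (t - s) ≤ infDist y U := by
        have : χ y = d0 + inner ℝ (y - x0) e := rfl
        linarith
      refine (hg y hy' h6).trans (Real.exp_le_exp.2 ?_)
      have h7 : cc / 2 * (χ y - ε' * t) ≤ cc / 2 * infDist y U :=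
        mul_le_mul_of_nonneg_left (by
          have : χ y = d0 + inner ℝ (y - x0) e := rfl
          linarith) (by linarith)
      have h8 : a / 2 * (a ^ 5 * t) ≤ a / 2 * (χ y - cc * (t - s)) :=
        mul_le_mul_of_nonneg_left (by linarith) (by linarith)
      have h9 : a / 2 * (a ^ 5 * t) = a ^ 6 / 2 * t := by ring
      have h10 : (cc / 2 - a / 2) * (χ y - cc * (t - s)) = cc / 2 * χ y -
        cc / 2 * (cc * (t - s)) - a / 2 * (χ y - cc * (t - s)) := by ring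
      have h11 : cc / 2 * (χ y - ε' * t) = cc / 2 * χ y - cc / 2 * ε' * t := by ring
      have h12 : -((cc / 2 - a / 2) * (d0 + inner ℝ (y - x0) e - cc * (t - s))) =
        -((cc / 2 - a / 2) * (χ y - cc * (t - s))) := rfl
      rw [h12, h10]
      linarith
    · rw [indicator_of_notMem hyA]
      exact (Real.exp_pos _).le
  · rw [sub_sub_cancel, one_mul]
    exact P0A_arith3 hK.le ht0 hs0 hs1 hMb hMp0' ha (by linarith) hsqN hL e4

end Pool.Agent.H24.RF
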